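import Mathlib

set_option autoImplicit false
set_option linter.unusedSectionVars false
set_option linter.unusedSimpArgs false

namespace Pool.Agent.P.MP_a84a61_al.Odd

open Finset

section aff
variable {R T V : Type} [CommRing R] [Group T] [AddCommGroup V] [Module R V]

/-- the semidirect product of a module and a group -/
@[ext] structure Aff (ρ : T →* Module.End R V) where
  v : V
  g : T

lemma rho_mul (ρ : T →* Module.End R V) (g h : T) (v : V) : ρ (g * h) v = ρ g (ρ h v) := by
  rw [map_mul]; rfl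

lemma rho_one (ρ : T →* Module.End R V) (v : V) : ρ 1 v = v := by
  rw [map_one]; rfl

namespace Aff
variable {ρ : T →* Module.End R V}

instance : Mul (Aff ρ) := ⟨fun x y => ⟨x.v + ρ x.g y.v, x.g * y.g⟩⟩
instance : One (Aff ρ) := ⟨⟨0, 1⟩⟩
instance : Inv (Aff ρ) := ⟨fun x => ⟨-(ρ x.g⁻¹ x.v), x.g⁻¹⟩⟩

@[simp] lemma mul_v (x y : Aff ρ) : (x * y).v = x.v + ρ x.g y.v := rfl
@[simp] lemma mul_g (x y : Aff ρ) : (x * y).g = x.g * y.g := rfl
@[simp] lemma one_v : (1 : Aff ρ).v = 0 := rfl
@[simp] lemma one_g : (1 : Aff ρ).g = 1 := rfl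
@[simp] lemma inv_v (x : Aff ρ) : (x⁻¹).v = -(ρ x.g⁻¹ x.v) := rfl
@[simp] lemma inv_g (x : Aff ρ) : (x⁻¹).g = x.g⁻¹ := rfl

instance : Group (Aff ρ) := Group.ofLeftAxioms
  (fun x y z => by
    ext
    · simp only [mul_v, mul_g, map_add, rho_mul, add_assoc]
    · simp [mul_assoc])
  (fun x => by ext <;> simp)
  (fun x => by ext <;> simp)

/-- the projection to the top group -/
def top (ρ : T →* Module.End R V) : Aff ρ →* T := ⟨⟨fun x => x.g, rfl⟩, fun _ _ => rfl⟩

@[simp] lemma top_apply (x : Aff ρ) : top ρ x = x.g := rfl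

/-- the affine action -/
def act (x : Aff ρ) (w : V) : V := x.v + ρ x.g w

lemma act_mul (x y : Aff ρ) (w : V) : (x * y).act w = x.act (y.act w) := by
  simp only [act, mul_v, mul_g, map_add, rho_mul, add_assoc]

lemma act_one (w : V) : (1 : Aff ρ).act w = w := by simp [act]

lemma act_zero (x : Aff ρ) : x.act 0 = x.v := by simp [act]

/-- the linear representation on one more dimension -/
def lin (ρ : T →* Module.End R V) : Aff ρ →* Module.End R (V × R) where
  toFun x :=
    { toFun := fun m => (ρ x.g m.1 + m.2 • x.v, m.2)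
      map_add' := fun m m' => by
        ext
        · simp only [Prod.fst_add, Prod.snd_add, map_add, add_smul]; abel
        · rfl
      map_smul' := fun c m => by
        ext
        · simp [mul_smul]
        · rfl }
  map_one' := by
    refine LinearMap.ext fun m => ?_
    simp
  map_mul' x y := by
    refine LinearMap.ext fun m => ?_
    ext
    · simp only [mul_g, mul_v, rho_mul, smul_add, LinearMap.coe_mk, AddHom.coe_mk,
        Module.End.mul_apply, map_add, map_smul]
      abel
    · rfl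

lemma lin_eq_one (x : Aff ρ) : lin ρ x = 1 ↔ x.v = 0 ∧ ρ x.g = 1 := by
  constructor
  · intro h
    have h1 : ∀ m : V × R, ρ x.g m.1 + m.2 • x.v = m.1 := fun m =>
      congrArg Prod.fst (LinearMap.congr_fun h m)
    refine ⟨by simpa using h1 (0, 1), LinearMap.ext fun m => by simpa using h1 (m, 0)⟩
  · rintro ⟨h1, h2⟩
    refine LinearMap.ext fun m => ?_
    change (ρ x.g m.1 + m.2 • x.v, m.2) = m
    simp [h1, h2]

end Aff

/-- the representation on an invariant space of functions -/
def fn {ρ : T →* Module.End R V} (M : Submodule R (V → R))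
    (hM : ∀ x : Aff ρ, ∀ φ ∈ M, (fun w => φ (x.act w)) ∈ M) : Aff ρ →* Module.End R M where
  toFun x :=
    { toFun := fun φ => ⟨fun w => φ.1 (x⁻¹.act w), hM _ _ φ.2⟩
      map_add' := fun _ _ => rfl
      map_smul' := fun _ _ => rfl }
  map_one' := by
    refine LinearMap.ext fun φ => Subtype.ext (funext fun w => ?_)
    change φ.1 ((1 : Aff ρ)⁻¹.act w) = φ.1 w
    rw [inv_one, Aff.act_one]
  map_mul' x y := by
    refine LinearMap.ext fun φ => Subtype.ext (funext fun w => ?_)
    change φ.1 ((x * y)⁻¹.act w) = φ.1 (y⁻¹.act (x⁻¹.act w))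
    rw [mul_inv_rev, Aff.act_mul]

lemma fn_apply {ρ : T →* Module.End R V} (M : Submodule R (V → R))
    (hM : ∀ x : Aff ρ, ∀ φ ∈ M, (fun w => φ (x.act w)) ∈ M) (x : Aff ρ) (φ : M) (w : V) :
    (fn M hM x φ).1 w = φ.1 (x⁻¹.act w) := rfl

end aff

/-! the universal affine action of a free group -/

abbrev XX (ι : Type) := FreeGroup ι × Option ι

noncomputable def reg (ι : Type) : FreeGroup ι →* Module.End ℤ (XX ι →₀ ℤ) where
  toFun g := Finsupp.lmapDomain ℤ ℤ fun x => (g * x.1, x.2)
  map_one' := by ext; simp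
  map_mul' g h := by ext : 2; simp [mul_assoc]

lemma reg_single {ι : Type} (g : FreeGroup ι) (x : XX ι) (n : ℤ) :
    reg ι g (Finsupp.single x n) = Finsupp.single (g * x.1, x.2) n := by
  simp [reg]

noncomputable def unv (ι : Type) : FreeGroup ι →* Aff (reg ι) :=
  FreeGroup.lift fun j => ⟨Finsupp.single (1, some j) 1, FreeGroup.of j⟩

noncomputable def uu {ι : Type} (g : FreeGroup ι) : XX ι →₀ ℤ :=
  (unv ι g).act (Finsupp.single (1, none) 1)

section fox
variable {R T V : Type} [CommRing R] [Group T] [AddCommGroup V] [Module R V]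
  {ρ : T →* Module.End R V} {ι : Type}

def vec (τ : FreeGroup ι →* Aff ρ) (w : V) : Option ι → V :=
  fun i => i.elim w fun j => (τ (FreeGroup.of j)).v

noncomputable def Th (τ : FreeGroup ι →* Aff ρ) (w : V) : (XX ι →₀ ℤ) →ₗ[ℤ] V :=
  Finsupp.linearCombination ℤ fun x => ρ (τ x.1).g (vec τ w x.2)

lemma Th_reg (τ : FreeGroup ι →* Aff ρ) (w : V) (g : FreeGroup ι) (ξ : XX ι →₀ ℤ) :
    Th τ w (reg ι g ξ) = ρ (τ g).g (Th τ w ξ) := by
  induction ξ using Finsupp.induction_linear with
  | zero => simp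
  | add x y hx hy => simp only [map_add, hx, hy]
  | single x n =>
    rw [reg_single]
    simp only [Th, Finsupp.linearCombination_single, map_mul τ, Aff.mul_g, rho_mul, map_zsmul]

lemma Th_act (τ : FreeGroup ι →* Aff ρ) (w : V) (g : FreeGroup ι) :
    ∀ ξ : XX ι →₀ ℤ, Th τ w ((unv ι g).act ξ) = (τ g).act (Th τ w ξ) := by
  induction g using FreeGroup.induction_on with
  | C1 => intro ξ; rw [map_one, map_one, Aff.act_one, Aff.act_one]
  | of j =>
    intro ξ
    rw [unv, FreeGroup.lift_apply_of]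
    simp only [Aff.act, map_add, Th_reg]
    congr 1
    simp [Th, vec]
  | inv_of j h =>
    intro ξ
    have h1 := h ((unv ι (FreeGroup.of j)⁻¹).act ξ)
    rw [← Aff.act_mul, ← map_mul, mul_inv_cancel, map_one, Aff.act_one] at h1
    rw [h1, ← Aff.act_mul, ← map_mul, inv_mul_cancel, map_one, Aff.act_one]
  | mul x y hx hy => intro ξ; rw [map_mul, map_mul, Aff.act_mul, Aff.act_mul, hx, hy]

lemma act_eq (τ : FreeGroup ι →* Aff ρ) (w : V) (g : FreeGroup ι) (S : Finset (XX ι))
    (hS : (uu g).support ⊆ S) :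
    (τ g).act w = ∑ x ∈ S, uu g x • ρ (τ x.1).g (vec τ w x.2) := by
  have h1 := Th_act τ w g (Finsupp.single (1, none) 1)
  have h2 : Th τ w (Finsupp.single (1, none) 1) = w := by simp [Th, vec]
  rw [h2] at h1
  rw [← h1]
  change Th τ w (uu g) = _
  rw [Th, Finsupp.linearCombination_apply, Finsupp.sum_of_support_subset _ hS _ (by simp)]

end fox

/-! the dihedral group of order eight and the twisted double of a representation -/

def sgn (e : ZMod 2) : ℤ := if e = 0 then 1 else -1

lemma sgn_add (a b : ZMod 2) : sgn (a + b) = sgn a * sgn b := by revert a b; decide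

@[ext] structure Heis where
  a : ZMod 2
  b : ZMod 2
  c : ZMod 2
deriving DecidableEq, Fintype

namespace Heis

instance : Mul Heis := ⟨fun x y => ⟨x.a + y.a, x.b + y.b, x.c + y.c + y.b * x.a⟩⟩
instance : One Heis := ⟨⟨0, 0, 0⟩⟩
instance : Inv Heis := ⟨fun x => ⟨x.a, x.b, x.c + x.b * x.a⟩⟩

lemma mul_a (x y : Heis) : (x * y).a = x.a + y.a := rfl
lemma mul_b (x y : Heis) : (x * y).b = x.b + y.b := rfl
lemma mul_c (x y : Heis) : (x * y).c = x.c + y.c + y.b * x.a := rfl

instance : Group Heis := Group.ofLeftAxioms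
  (fun x y z => by
    ext
    · simp only [mul_a]; ring
    · simp only [mul_b]; ring
    · simp only [mul_a, mul_b, mul_c]; ring)
  (by decide) (by decide)

end Heis

section tw
variable {R T V : Type} [CommRing R] [Group T] [AddCommGroup V] [Module R V]

def tw (ρ : T →* Module.End R V) : T × Heis →* Module.End R (ZMod 2 → V) where
  toFun x :=
    { toFun := fun φ s => sgn (x.2.c + x.2.b * s) • ρ x.1 (φ (s + x.2.a))
      map_add' := fun _ _ => by funext s; simp
      map_smul' := fun c φ => by funext s; simp [smul_comm c] }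
  map_one' := by
    refine LinearMap.ext fun φ => funext fun s => ?_
    change sgn (0 + 0 * s) • ρ 1 (φ (s + 0)) = φ s
    simp [sgn]
  map_mul' x y := by
    refine LinearMap.ext fun φ => funext fun s => ?_
    change sgn ((x.2.c + y.2.c + y.2.b * x.2.a) + (x.2.b + y.2.b) * s) •
      ρ (x.1 * y.1) (φ (s + (x.2.a + y.2.a))) = sgn (x.2.c + x.2.b * s) •
        ρ x.1 (sgn (y.2.c + y.2.b * (s + x.2.a)) • ρ y.1 (φ (s + x.2.a + y.2.a)))
    rw [map_zsmul, smul_smul, ← sgn_add, rho_mul, add_assoc s]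
    congr 2
    ring

lemma tw_apply (ρ : T →* Module.End R V) (x : T × Heis) (φ : ZMod 2 → V) (s : ZMod 2) :
    tw ρ x φ s = sgn (x.2.c + x.2.b * s) • ρ x.1 (φ (s + x.2.a)) := rfl

lemma tw_one (ρ : T →* Module.End R V) (g : T) (φ : ZMod 2 → V) (s : ZMod 2) :
    tw ρ (g, 1) φ s = ρ g (φ s) := by
  change sgn (0 + 0 * s) • ρ g (φ (s + 0)) = _
  simp [sgn]

lemma tw_neg (ρ : T →* Module.End R V) (φ : ZMod 2 → V) :
    tw ρ (1, ⟨0, 0, 1⟩) φ = -φ := by
  funext s
  change sgn (1 + 0 * s) • ρ 1 (φ (s + 0)) = _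
  simp [sgn]

variable {R' T' V' : Type} [CommRing R'] [Group T'] [AddCommGroup V'] [Module R' V']

/-- identities of the first representation in the variables `ι` hold in the second -/
def Tr (ι : Type) (ρ : T →* Module.End R V) (ρ' : T' →* Module.End R' V') : Prop :=
  ∀ (A : Type) (S : Finset A) (f : A → ℤ) (g : A → FreeGroup ι),
    (∀ τ : FreeGroup ι →* T, ∑ a ∈ S, f a • ρ (τ (g a)) = 0) →
      ∀ σ : FreeGroup ι →* T', ∑ a ∈ S, f a • ρ' (σ (g a)) = 0

variable {ι : Type} {ρ : T →* Module.End R V} {ρ' : T' →* Module.End R' V'}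

lemma tw_sum {A : Type} (S : Finset A) (f : A → ℤ) (x : A → T × Heis) (φ : ZMod 2 → V)
    (s : ZMod 2) : (∑ a ∈ S, f a • tw ρ (x a)) φ s = ∑ s', (∑ a ∈ S,
      (if s + (x a).2.a = s' then f a * sgn ((x a).2.c + (x a).2.b * s) else 0) • ρ (x a).1)
        (φ s') := by
  simp only [LinearMap.sum_apply, Finset.sum_apply, LinearMap.smul_apply, Pi.smul_apply, tw_apply]
  rw [Finset.sum_comm]
  refine sum_congr rfl fun a _ => ?_
  simp [mul_smul]

lemma Tr.tw (h : Tr ι ρ ρ') : Tr ι (tw ρ) (tw ρ') := by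
  intro A S f g hG σ
  refine LinearMap.ext fun φ => funext fun s => ?_
  rw [tw_sum]
  refine sum_eq_zero fun s' _ => ?_
  have := h A S (fun a => if s + (σ (g a)).2.a = s' then
    f a * sgn ((σ (g a)).2.c + (σ (g a)).2.b * s) else 0) g (fun τ => ?_)
    ((MonoidHom.fst _ _).comp σ)
  · exact LinearMap.congr_fun this (φ s')
  · refine LinearMap.ext fun m => ?_
    have h1 := congrFun (LinearMap.congr_fun (hG (τ.prod ((MonoidHom.snd _ _).comp σ)))
      (Pi.single s' m)) s
    rw [tw_sum, Finset.sum_eq_single s' (fun b _ hb => by rw [Pi.single_eq_of_ne hb, map_zero])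
      (by simp), Pi.single_eq_same] at h1
    exact h1

lemma Tr.law [Fintype ι] [DecidableEq ι] (h : Tr ι ρ ρ') (w : FreeGroup ι)
    (hw : ∀ τ : FreeGroup ι →* Aff ρ, Aff.lin ρ (τ w) = 1) (σ : FreeGroup ι →* Aff ρ') :
    Aff.lin ρ' (σ w) = 1 := by
  have key : ∀ (τ : FreeGroup ι →* T) (m : ι → V) (x : FreeGroup ι),
      (FreeGroup.lift (fun j => (⟨m j, τ (FreeGroup.of j)⟩ : Aff ρ)) x).g = τ x := by
    intro τ m x
    have : (Aff.top ρ).comp (FreeGroup.lift fun j => (⟨m j, τ (FreeGroup.of j)⟩ : Aff ρ)) = τ := by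
      ext j; simp
    exact DFunLike.congr_fun this x
  rw [Aff.lin_eq_one]
  constructor
  · have h1 : ∀ j : ι, ∑ x ∈ (uu w).support,
        (if x.2 = some j then uu w x else 0) • ρ' (σ x.1).g = 0 := by
      intro j
      refine h (XX ι) _ _ (fun x => x.1) (fun τ => LinearMap.ext fun m => ?_)
        ((Aff.top ρ').comp σ)
      have h2 := ((Aff.lin_eq_one _).1 (hw (FreeGroup.lift fun j' =>
        (⟨(Pi.single j m : ι → V) j', τ (FreeGroup.of j')⟩ : Aff ρ)))).1
      rw [← Aff.act_zero, act_eq _ _ _ _ subset_rfl] at h2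
      rw [LinearMap.sum_apply, LinearMap.zero_apply, ← h2]
      refine sum_congr rfl fun x _ => ?_
      rw [key]
      obtain ⟨x, _ | i⟩ := x
      · simp [vec]
      · by_cases hi : i = j
        · simp [vec, hi]
        · simp [vec, hi]
    rw [← Aff.act_zero, act_eq _ _ _ _ subset_rfl]
    have h3 : ∑ j : ι, (∑ x ∈ (uu w).support,
        (if x.2 = some j then uu w x else 0) • ρ' (σ x.1).g) (σ (FreeGroup.of j)).v = 0 := by
      simp only [h1, LinearMap.zero_apply, sum_const_zero]
    refine Eq.trans ?_ h3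
    simp only [LinearMap.sum_apply]
    rw [Finset.sum_comm]
    refine sum_congr rfl fun x _ => ?_
    obtain ⟨x, _ | i⟩ := x
    · simp [vec]
    · rw [Finset.sum_eq_single i (fun b _ hb => by simp [Ne.symm hb]) (by simp)]
      simp [vec]
  · have h1 := h Bool univ (fun b => if b then 1 else -1) (fun b => if b then w else 1)
      (fun τ => ?_) ((Aff.top ρ').comp σ)
    · simpa [add_neg_eq_zero] using h1
    · have h2 := ((Aff.lin_eq_one _).1 (hw (FreeGroup.lift fun j' =>
        (⟨0, τ (FreeGroup.of j')⟩ : Aff ρ)))).2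
      rw [key τ fun _ => 0] at h2
      simp [h2]

end tw

end Pool.Agent.P.MP_a84a61_al.Odd
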