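import Pool.Agent.P.MP_a84a61_al.Odd.GG

set_option autoImplicit false
set_option linter.unusedSectionVars false
set_option linter.unusedSimpArgs false

namespace Pool.Agent.P.MP_a84a61_al.Odd

open Finset

/-- the group of moments -/
@[ext] structure JJ (F κ : Type) where
  n : F
  m0 : κ → F
  m1 : κ → F
  m2 : κ → F

namespace JJ
variable {F κ : Type} [CommRing F]

instance : Mul (JJ F κ) := ⟨fun x y => ⟨x.n + y.n, fun i => x.m0 i + y.m0 i,
  fun i => x.m1 i + y.m1 i + x.n * y.m0 i,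
  fun i => x.m2 i + y.m2 i + 2 * x.n * y.m1 i + x.n ^ 2 * y.m0 i⟩⟩
instance : One (JJ F κ) := ⟨⟨0, 0, 0, 0⟩⟩
instance : Inv (JJ F κ) := ⟨fun x => ⟨-x.n, fun i => -x.m0 i, fun i => x.n * x.m0 i - x.m1 i,
  fun i => 2 * x.n * x.m1 i - x.m2 i - x.n ^ 2 * x.m0 i⟩⟩

@[simp] lemma mul_n (x y : JJ F κ) : (x * y).n = x.n + y.n := rfl
@[simp] lemma mul_m0 (x y : JJ F κ) (i : κ) : (x * y).m0 i = x.m0 i + y.m0 i := rfl
@[simp] lemma mul_m1 (x y : JJ F κ) (i : κ) :
    (x * y).m1 i = x.m1 i + y.m1 i + x.n * y.m0 i := rfl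
@[simp] lemma mul_m2 (x y : JJ F κ) (i : κ) :
    (x * y).m2 i = x.m2 i + y.m2 i + 2 * x.n * y.m1 i + x.n ^ 2 * y.m0 i := rfl
@[simp] lemma one_n : (1 : JJ F κ).n = 0 := rfl
@[simp] lemma one_m0 (i : κ) : (1 : JJ F κ).m0 i = 0 := rfl
@[simp] lemma one_m1 (i : κ) : (1 : JJ F κ).m1 i = 0 := rfl
@[simp] lemma one_m2 (i : κ) : (1 : JJ F κ).m2 i = 0 := rfl
@[simp] lemma inv_n (x : JJ F κ) : (x⁻¹).n = -x.n := rfl
@[simp] lemma inv_m0 (x : JJ F κ) (i : κ) : (x⁻¹).m0 i = -x.m0 i := rfl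
@[simp] lemma inv_m1 (x : JJ F κ) (i : κ) : (x⁻¹).m1 i = x.n * x.m0 i - x.m1 i := rfl
@[simp] lemma inv_m2 (x : JJ F κ) (i : κ) :
    (x⁻¹).m2 i = 2 * x.n * x.m1 i - x.m2 i - x.n ^ 2 * x.m0 i := rfl

instance : Group (JJ F κ) := Group.ofLeftAxioms
  (fun x y z => by ext <;> simp only [mul_n, mul_m0, mul_m1, mul_m2] <;> ring)
  (fun x => by ext <;> simp)
  (fun x => by
    ext <;> simp only [mul_n, mul_m0, mul_m1, mul_m2, inv_n, inv_m0, inv_m1, inv_m2, one_n,
      one_m0, one_m1, one_m2] <;> ring)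

/-- the shifted moments -/
def toWr {p : ℕ} : JJ (ZMod p) κ →* Wr p (κ → ZMod p × ZMod p) where
  toFun x := ⟨fun s i => (x.m1 i + s * x.m0 i, x.m2 i + 2 * s * x.m1 i + s ^ 2 * x.m0 i), x.n⟩
  map_one' := by ext <;> simp
  map_mul' x y := by
    ext <;> simp only [mul_n, mul_m0, mul_m1, mul_m2, Wr.mul_a, Wr.mul_c, Pi.add_apply,
      Prod.fst_add, Prod.snd_add] <;> ring

lemma list_prod (l : List (JJ F κ)) (h : ∀ x ∈ l, x.n = 0) (h' : ∀ x ∈ l, ∀ i, x.m0 i = 0) :
    l.prod.n = 0 ∧ ∀ i, l.prod.m0 i = 0 ∧ l.prod.m1 i = (l.map fun x => x.m1 i).sum := by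
  induction l with
  | nil => simp
  | cons a l ih =>
    obtain ⟨h1, h2⟩ := ih (fun x hx => h x (by simp [hx])) (fun x hx => h' x (by simp [hx]))
    simp [h a (by simp), h' a (by simp), h1, h2]

end JJ

/-- the exponent sums -/
def deg {ι : Type} [DecidableEq ι] : FreeGroup ι →* Multiplicative (ι → ℤ) :=
  FreeGroup.lift fun j => Multiplicative.ofAdd (Pi.single j 1)

lemma add_eq_sum {ι F : Type} [Fintype ι] [DecidableEq ι] [CommRing F] (χ : FreeGroup ι → F)
    (h : ∀ g g', χ (g * g') = χ g + χ g') (g : FreeGroup ι) :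
    χ g = ∑ j, ((deg g).toAdd j : F) * χ (FreeGroup.of j) := by
  have h1 : χ 1 = 0 := by simpa using h 1 1
  induction g using FreeGroup.induction_on with
  | C1 => simp [h1]
  | of x => simp [deg, Pi.single_apply]
  | inv_of x _ =>
    have h2 := h (FreeGroup.of x) (FreeGroup.of x)⁻¹
    rw [mul_inv_cancel, h1] at h2
    simp [deg, Pi.single_apply, eq_neg_of_add_eq_zero_right h2.symm]
  | mul x y hx hy => rw [h, hx, hy, ← sum_add_distrib]; simp [add_mul]

def rot {p : ℕ} {L : Type} (r : ZMod p) (x : ZMod p → L) : ZMod p → L := fun s => x (s + r)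

variable {p : ℕ} [Fact p.Prime] {κ : Type} [Fintype κ] [DecidableEq κ]

abbrev PP (κ : Type) := FreeGroup (Option κ ⊕ κ)

def rho (φ : Option κ → ZMod p) : PP κ →* JJ (ZMod p) κ :=
  FreeGroup.lift (Sum.elim (fun o => ⟨φ o, 0, 0, 0⟩) fun i => ⟨0, Pi.single i 1, 0, 0⟩)

lemma rho_add (φ η : Option κ → ZMod p) (g : PP κ) :
    (rho (φ + η) g).n = (rho φ g).n + (rho η g).n ∧ ∀ i, (rho φ g).m0 i = (rho η g).m0 i ∧
      (rho (φ + η) g).m0 i = (rho η g).m0 i ∧
      (rho (φ + η) g).m1 i = (rho φ g).m1 i + (rho η g).m1 i := by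
  induction g using FreeGroup.induction_on with
  | C1 => simp
  | of x => rcases x with x | x <;> simp [rho]
  | inv_of x _ => rcases x with x | x <;> simp [rho, add_comm]
  | mul x y hx hy =>
    simp only [map_mul, JJ.mul_n, JJ.mul_m0, JJ.mul_m1, hx.1, hy.1]
    refine ⟨by ring, fun i => ?_⟩
    rw [(hx.2 i).1, (hx.2 i).2.1, (hx.2 i).2.2, (hy.2 i).1, (hy.2 i).2.1, (hy.2 i).2.2]
    exact ⟨rfl, rfl, by ring⟩

lemma rho_m0 (φ η : Option κ → ZMod p) (g : PP κ) (i : κ) : (rho φ g).m0 i = (rho η g).m0 i :=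
  ((rho_add φ η g).2 i).1

/-- the top component as an additive function -/
def nH (g : PP κ) : (Option κ → ZMod p) →+ ZMod p :=
  AddMonoidHom.mk' (fun φ => (rho φ g).n) fun φ η => (rho_add φ η g).1

/-- the first moment as an additive function -/
def m1H (g : PP κ) (i : κ) : (Option κ → ZMod p) →+ ZMod p :=
  AddMonoidHom.mk' (fun φ => (rho φ g).m1 i) fun φ η => ((rho_add φ η g).2 i).2.2

def d1 (φ : Option κ → ZMod p) (g : ZMod p → PP κ) (i : κ) : ZMod p := ∑ s, (rho φ (g s)).m1 i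

def d2 (φ : Option κ → ZMod p) (g : ZMod p → PP κ) (i : κ) : ZMod p :=
  ∑ s, ((rho φ (g s)).m2 i + 2 * s * (rho φ (g s)).m1 i)

def II (d : κ → ZMod p) : ZMod p := if ∀ i, d i ≠ 0 then 1 else 0

def FF (i1 : κ) (φ : Option κ → ZMod p) (g : ZMod p → PP κ) : ZMod p :=
  (φ none)⁻¹ * (d2 φ g i1 * (d1 φ g i1)⁻¹ * II (d1 φ g))

def ell (i1 : κ) (g : ZMod p → PP κ) : ZMod p := ∑ φ, FF i1 φ g

lemma mul_inv_II (d : κ → ZMod p) (i : κ) : d i * (d i)⁻¹ * II d = II d := by
  unfold II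
  split_ifs with h
  · rw [mul_inv_cancel₀ (h i), one_mul]
  · rw [mul_zero]

lemma two_ne (h2 : p ≠ 2) : (2 : ZMod p) ≠ 0 := by
  intro h
  have h1 : p ∣ 2 := (ZMod.natCast_eq_zero_iff 2 p).1 (by exact_mod_cast h)
  exact h2 ((Nat.prime_dvd_prime_iff_eq Fact.out Nat.prime_two).1 h1)

lemma sum_const_zmod (c : ZMod p) : ∑ _s : ZMod p, c = 0 := by simp

lemma sum_odd (h2 : p ≠ 2) (g : ZMod p → PP κ) : ∑ φ, (φ none)⁻¹ * II (d1 φ g) = 0 := by
  have h1 : ∀ φ : Option κ → ZMod p, II (d1 (-φ) g) = II (d1 φ g) := by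
    intro φ
    have : ∀ i, d1 (-φ) g i = -d1 φ g i := fun i => by
      rw [d1, d1, ← sum_neg_distrib]
      exact sum_congr rfl fun s _ => map_neg (m1H (g s) i) φ
    simp [II, this]
  have h3 := Equiv.sum_comp (Equiv.neg (Option κ → ZMod p))
    fun φ => (φ none)⁻¹ * II (d1 φ g)
  simp only [Equiv.neg_apply, h1, Pi.neg_apply, inv_neg, neg_mul, sum_neg_distrib] at h3
  refine (mul_eq_zero.1 ?_).resolve_left (two_ne h2)
  linear_combination -h3

lemma ell_rot (h2 : p ≠ 2) (i1 : κ) (r : ZMod p) (g : ZMod p → PP κ) :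
    ell i1 (rot r g) = ell i1 g := by
  have h1 : ∀ φ : Option κ → ZMod p, d1 φ (rot r g) = d1 φ g := fun φ => funext fun i =>
    Equiv.sum_comp (Equiv.addRight r) fun s => (rho φ (g s)).m1 i
  have h3 : ∀ φ : Option κ → ZMod p, d2 φ (rot r g) i1 = d2 φ g i1 - 2 * r * d1 φ g i1 := by
    intro φ
    rw [d2, d2, d1, Finset.mul_sum, ← sum_sub_distrib, ← Equiv.sum_comp (Equiv.addRight r)
      fun s => (rho φ (g s)).m2 i1 + 2 * s * (rho φ (g s)).m1 i1 - 2 * r * (rho φ (g s)).m1 i1]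
    refine sum_congr rfl fun s _ => ?_
    simp only [rot, Equiv.coe_addRight]
    ring
  have h4 : ∀ φ : Option κ → ZMod p, FF i1 φ (rot r g) =
      FF i1 φ g - 2 * r * ((φ none)⁻¹ * II (d1 φ g)) := by
    intro φ
    rw [FF, FF, h1, h3]
    linear_combination (-2 * r * (φ none)⁻¹) * mul_inv_II (d1 φ g) i1
  simp only [ell, h4, sum_sub_distrib, ← Finset.mul_sum, sum_odd h2, mul_zero, sub_zero]

lemma ell_const (i1 : κ) (g : ZMod p → PP κ) (h : ∀ s, g s = g 0) : ell i1 g = 0 := by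
  refine sum_eq_zero fun φ _ => ?_
  have : d1 φ g i1 = 0 := by simp only [d1, h]; exact sum_const_zmod _
  rw [FF, this, inv_zero, mul_zero, zero_mul, mul_zero]

lemma sum_shift_zero {O : Type} [Fintype O] [DecidableEq O] (G : (O → ZMod p) → ZMod p)
    (η : O → ZMod p) (hη : η ≠ 0) (h : ∀ φ, G (φ + η) = G φ) : ∑ φ, G φ = 0 := by
  obtain ⟨o, ho⟩ := Function.ne_iff.1 hη
  have h1 := Equiv.sum_comp (Equiv.addRight η) fun φ => G φ * φ o
  simp only [Equiv.coe_addRight, h, Pi.add_apply, mul_add, sum_add_distrib,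
    ← Finset.sum_mul] at h1
  exact (mul_eq_zero.1 (add_eq_left.1 h1)).resolve_right ho

variable {ι : Type} [Fintype ι] [DecidableEq ι]

/-- the class modulo `p` -/
def cl (p : ℕ) (g : FreeGroup ι) : ι → ZMod p := fun j => ((deg g).toAdd j : ZMod p)

lemma add_congr (χ : FreeGroup ι → ZMod p) (h : ∀ g g', χ (g * g') = χ g + χ g')
    {g g' : FreeGroup ι} (hg : cl p g = cl p g') : χ g = χ g' := by
  rw [add_eq_sum χ h g, add_eq_sum χ h g']
  exact sum_congr rfl fun j _ => congrArg (· * _) (congrFun hg j)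

lemma n_congr (σ : FreeGroup ι →* PP κ) (φ : Option κ → ZMod p) {g g' : FreeGroup ι}
    (hg : cl p g = cl p g') : (rho φ (σ g)).n = (rho φ (σ g')).n :=
  add_congr (fun g => (rho φ (σ g)).n) (fun _ _ => by simp) hg

lemma m0_congr (σ : FreeGroup ι →* PP κ) (φ : Option κ → ZMod p) {g g' : FreeGroup ι}
    (hg : cl p g = cl p g') (i : κ) : (rho φ (σ g)).m0 i = (rho φ (σ g')).m0 i :=
  add_congr (fun g => (rho φ (σ g)).m0 i) (fun _ _ => by simp) hg

/-- tuples with equal labels -/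
lemma ell_fibre (h2 : p ≠ 2) (hc : 2 * Fintype.card ι < Fintype.card κ) (i1 : κ)
    (σ : FreeGroup ι →* PP κ) (h : ZMod p → FreeGroup ι) (hh : ∀ s, cl p (h s) = cl p (h 0))
    (b : PP κ) : ell i1 (fun s => σ (h s) * b) = 0 := by
  have hs : ∑ x : ZMod p, 2 * x = 0 := by rw [← Finset.mul_sum, sum_id_zmod h2, mul_zero]
  have e1 : ∀ φ : Option κ → ZMod p, d1 φ (fun s => σ (h s) * b) = d1 φ fun s => σ (h s) := by
    intro φ
    funext i
    simp only [d1, map_mul, JJ.mul_m1, sum_add_distrib, n_congr σ φ (hh _), sum_const_zmod,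
      add_zero]
  have e2 : ∀ (φ : Option κ → ZMod p) i,
      d2 φ (fun s => σ (h s) * b) i = d2 φ (fun s => σ (h s)) i := by
    intro φ i
    simp only [d2, map_mul, JJ.mul_m1, JJ.mul_m2, n_congr σ φ (hh _), mul_add, sum_add_distrib,
      sum_const_zmod, add_zero, ← Finset.sum_mul, hs, zero_mul]
  let Λ : (Option κ → ZMod p) →+ (Option (ι ⊕ ι) → ZMod p) := AddMonoidHom.pi fun o =>
    o.elim (Pi.evalAddMonoidHom _ none)
      (Sum.elim (fun j => nH (σ (FreeGroup.of j))) fun j => m1H (σ (FreeGroup.of j)) i1)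
  have hΛ : ¬ Function.Injective Λ := by
    intro hi
    have h1 := Fintype.card_le_of_injective _ hi
    simp only [Fintype.card_pi, prod_const, card_univ, ZMod.card, Fintype.card_option,
      Fintype.card_sum] at h1
    have := (Nat.pow_le_pow_iff_right (Fact.out : p.Prime).one_lt).1 h1
    omega
  rw [injective_iff_map_eq_zero] at hΛ
  push Not at hΛ
  obtain ⟨η, hη, hη0⟩ := hΛ
  have a0 : η none = 0 := congrFun hη none
  have a1 : ∀ g, (rho η (σ g)).n = 0 := by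
    intro g
    rw [add_eq_sum (fun g => (rho η (σ g)).n) (fun _ _ => by simp) g]
    exact sum_eq_zero fun j _ => mul_eq_zero_of_right _ (congrFun hη (some (.inl j)))
  have a2 : ∀ i g g', (rho η (σ (g * g'))).m1 i = (rho η (σ g)).m1 i + (rho η (σ g')).m1 i :=
    fun i g g' => by simp [a1]
  have a3 : ∀ g, (rho η (σ g)).m1 i1 = 0 := by
    intro g
    rw [add_eq_sum (fun g => (rho η (σ g)).m1 i1) (a2 i1) g]
    exact sum_eq_zero fun j _ => mul_eq_zero_of_right _ (congrFun hη (some (.inr j)))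
  refine sum_shift_zero _ η hη0 fun φ => ?_
  have b1 : d1 (φ + η) (fun s => σ (h s)) = d1 φ fun s => σ (h s) := by
    funext i
    simp only [d1, ((rho_add φ η _).2 i).2.2, sum_add_distrib,
      add_congr (fun g => (rho η (σ g)).m1 i) (a2 i) (hh _), sum_const_zmod, add_zero]
  have b2 : d2 (φ + η) (fun s => σ (h s)) i1 = d2 φ (fun s => σ (h s)) i1 := by
    have c1 : ∀ s, (rho (φ + η) (σ (h s))).m2 i1 = (rho φ (σ (h s))).m2 i1 +
        ((rho (φ + η) (σ (h 0))).m2 i1 - (rho φ (σ (h 0))).m2 i1) := by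
      intro s
      rw [← add_congr (fun g => (rho (φ + η) (σ g)).m2 i1 - (rho φ (σ g)).m2 i1) (fun g g' => by
        simp only [map_mul, JJ.mul_m2, (rho_add φ η _).1, ((rho_add φ η _).2 i1).2.2, a1, a3,
          add_zero, rho_m0 (φ + η) φ]
        ring) (hh s)]
      ring
    rw [d2, d2, sum_congr rfl fun s _ => by rw [c1 s]]
    simp only [((rho_add φ η _).2 i1).2.2, a3, add_zero, sum_add_distrib, sum_const_zmod]
  rw [FF, FF, e1, e1, e2, e2, b1, b2, Pi.add_apply, a0, add_zero]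

/-- the generic substitution into the wreath product -/
def pth (ψ : ι → ZMod p) : FreeGroup ι →* Wr p (ι × ZMod p → ℤ) :=
  FreeGroup.lift fun j => ⟨fun s => Pi.single (j, s) 1, ψ j⟩

lemma FF_congr (i1 : κ) (σ : FreeGroup ι →* PP κ) (φ : Option κ → ZMod p)
    (h h' : ZMod p → FreeGroup ι) (b : ZMod p → PP κ) (hh : ∀ s, cl p (h s) = cl p (h' s))
    (hp : ∑ s, (pth (fun j => (rho φ (σ (FreeGroup.of j))).n) (h s)).a s =
      ∑ s, (pth (fun j => (rho φ (σ (FreeGroup.of j))).n) (h' s)).a s) :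
    FF i1 φ (fun s => σ (h s) * b s) = FF i1 φ (fun s => σ (h' s) * b s) := by
  let Θ : (ι × ZMod p → ℤ) →+ (κ → ZMod p × ZMod p) := AddMonoidHom.mk'
    (fun Y => ∑ y, Y y • (JJ.toWr (rho φ (σ (FreeGroup.of y.1)))).a y.2)
    (fun Y Y' => by simp only [Pi.add_apply, add_smul, sum_add_distrib])
  have h1 : JJ.toWr.comp ((rho φ).comp σ) =
      (Wr.map Θ).comp (pth fun j => (rho φ (σ (FreeGroup.of j))).n) := by
    ext j : 1
    refine Wr.ext (funext fun s => ?_) ?_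
    · simp [pth, Θ, Pi.single_apply]
    · simp only [pth, MonoidHom.comp_apply, FreeGroup.lift_apply_of, Wr.map_c]
      rfl
  have h3 : ∀ k : ZMod p → FreeGroup ι, ∑ s, (JJ.toWr (rho φ (σ (k s)))).a s =
      Θ (∑ s, (pth (fun j => (rho φ (σ (FreeGroup.of j))).n) (k s)).a s) := by
    intro k
    rw [map_sum]
    exact sum_congr rfl fun s _ => congrFun (congrArg Wr.a (DFunLike.congr_fun h1 (k s))) s
  have h4 := fun i => congrFun ((h3 h).trans ((congrArg Θ hp).trans (h3 h').symm)) i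
  simp only [Finset.sum_apply, Prod.ext_iff, Prod.fst_sum, Prod.snd_sum] at h4
  have h5 : ∀ i, ∑ s, (rho φ (σ (h s))).m1 i = ∑ s, (rho φ (σ (h' s))).m1 i := by
    intro i
    have : ∑ s, ((rho φ (σ (h s))).m1 i + s * (rho φ (σ (h s))).m0 i) =
      ∑ s, ((rho φ (σ (h' s))).m1 i + s * (rho φ (σ (h' s))).m0 i) := (h4 i).1
    simpa only [sum_add_distrib, m0_congr σ φ (hh _), add_left_inj] using this
  have h6 : ∀ i, ∑ s, ((rho φ (σ (h s))).m2 i + 2 * s * (rho φ (σ (h s))).m1 i) =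
      ∑ s, ((rho φ (σ (h' s))).m2 i + 2 * s * (rho φ (σ (h' s))).m1 i) := by
    intro i
    have : ∑ s, ((rho φ (σ (h s))).m2 i + 2 * s * (rho φ (σ (h s))).m1 i +
        s ^ 2 * (rho φ (σ (h s))).m0 i) = ∑ s, ((rho φ (σ (h' s))).m2 i +
        2 * s * (rho φ (σ (h' s))).m1 i + s ^ 2 * (rho φ (σ (h' s))).m0 i) := (h4 i).2
    rw [sum_add_distrib, sum_add_distrib (f := fun s => (rho φ (σ (h' s))).m2 i +
      2 * s * (rho φ (σ (h' s))).m1 i)] at this
    simpa only [m0_congr σ φ (hh _), add_left_inj] using this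
  have e1 : d1 φ (fun s => σ (h s) * b s) = d1 φ (fun s => σ (h' s) * b s) := by
    funext i
    simp only [d1, map_mul, JJ.mul_m1, sum_add_distrib, n_congr σ φ (hh _), h5]
  have e2 : d2 φ (fun s => σ (h s) * b s) i1 = d2 φ (fun s => σ (h' s) * b s) i1 := by
    have h7 := h6 i1
    simp only [d2, map_mul, JJ.mul_m1, JJ.mul_m2, n_congr σ φ (hh _), mul_add,
      sum_add_distrib] at h7 ⊢
    linear_combination h7
  rw [FF, FF, e1, e2]

/-- the value on the law -/
lemma ell_val (h2 : p ≠ 2) (i1 : κ) (m : PP κ)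
    (hm : m = mw (fun i => FreeGroup.of (.inl (some i))) fun i => FreeGroup.of (.inr i)) :
    ell i1 (Pi.mulSingle (0 : ZMod p) (cj (FreeGroup.of (.inl none)) m)) ≠
      ell i1 (Pi.mulSingle (0 : ZMod p) m) := by
  have h1 : ∀ (φ : Option κ → ZMod p) (g : PP κ) i,
      d1 φ (Pi.mulSingle (0 : ZMod p) g) i = (rho φ g).m1 i ∧
      d2 φ (Pi.mulSingle (0 : ZMod p) g) i = (rho φ g).m2 i := by
    intro φ g i
    constructor
    · rw [d1, Finset.sum_eq_single 0 (fun s _ hs => by simp [hs]) (by simp)]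
      simp
    · rw [d2, Finset.sum_eq_single 0 (fun s _ hs => by simp [hs]) (by simp)]
      simp
  have h3 : ∀ φ : Option κ → ZMod p, (rho φ m).n = 0 ∧ ∀ i, (rho φ m).m0 i = 0 ∧
      (rho φ m).m1 i = φ (some i) := by
    intro φ
    rw [hm, map_mw, mw]
    obtain ⟨a1, a2⟩ := JJ.list_prod ((univ : Finset κ).toList.map fun i =>
      cm (rho φ (FreeGroup.of (.inl (some i)))) (rho φ (FreeGroup.of (.inr i))))
      (by
        intro x hx
        obtain ⟨i, -, rfl⟩ := List.mem_map.1 hx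
        simp [cm, rho])
      (by
        intro x hx
        obtain ⟨i, -, rfl⟩ := List.mem_map.1 hx
        simp [cm, rho])
    refine ⟨a1, fun i => ⟨(a2 i).1, ?_⟩⟩
    rw [(a2 i).2, List.map_map, Finset.sum_map_toList]
    simp [cm, rho, Pi.single_apply]
  have h4 : ∀ φ : Option κ → ZMod p,
      FF i1 φ (Pi.mulSingle (0 : ZMod p) (cj (FreeGroup.of (.inl none)) m)) =
      FF i1 φ (Pi.mulSingle (0 : ZMod p) m) + 2 * ∏ o, (if φ o = 0 then 0 else 1) := by
    intro φ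
    have b0 : rho φ (FreeGroup.of (.inl none)) = ⟨φ none, 0, 0, 0⟩ := by simp [rho]
    have b1 : d1 φ (Pi.mulSingle (0 : ZMod p) m) = fun i => φ (some i) :=
      funext fun i => by rw [(h1 φ _ i).1, ((h3 φ).2 i).2]
    have b2 : d1 φ (Pi.mulSingle (0 : ZMod p) (cj (FreeGroup.of (.inl none)) m)) =
        fun i => φ (some i) := funext fun i => by
      rw [(h1 φ _ i).1, map_cj, b0]
      simp [cj, (h3 φ).2 i]
    have b3 : d2 φ (Pi.mulSingle (0 : ZMod p) (cj (FreeGroup.of (.inl none)) m)) i1 =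
        (rho φ m).m2 i1 + 2 * φ none * φ (some i1) := by
      rw [(h1 φ _ i1).2, map_cj, b0]
      simp [cj, (h3 φ).2 i1]
    have b4 : (∏ o, (if φ o = 0 then 0 else 1) : ZMod p) =
        (φ none)⁻¹ * φ none * II fun i => φ (some i) := by
      rw [Fintype.prod_option]
      congr 1
      · split_ifs with h
        · rw [h, mul_zero]
        · rw [inv_mul_cancel₀ h]
      · unfold II
        split_ifs with h
        · exact prod_eq_one fun i _ => if_neg (h i)
        · push Not at h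
          obtain ⟨i, hi⟩ := h
          exact prod_eq_zero (mem_univ i) (if_pos hi)
    rw [FF, FF, b1, b2, b3, (h1 φ _ i1).2, b4]
    linear_combination (2 * (φ none)⁻¹ * φ none) * mul_inv_II (fun i => φ (some i)) i1
  have h5 : ∑ t : ZMod p, (if t = 0 then 0 else 1 : ZMod p) = -1 := by
    have : ∀ t : ZMod p, (if t = 0 then 0 else 1 : ZMod p) = 1 - if t = 0 then 1 else 0 := by
      intro t; split_ifs <;> simp
    simp [this, sum_sub_distrib]
  have h6 : ∑ φ : Option κ → ZMod p, ∏ o, (if φ o = 0 then 0 else 1 : ZMod p) =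
      ∏ _o : Option κ, (-1 : ZMod p) := by
    rw [← h5, Finset.prod_univ_sum, Fintype.piFinset_univ]
  rw [ell, ell]
  simp only [h4, sum_add_distrib, ← Finset.mul_sum, h6]
  intro h
  exact mul_ne_zero (two_ne h2) (prod_ne_zero_iff.2 fun _ _ => neg_ne_zero.2 one_ne_zero)
    (add_eq_left.1 h)

end Pool.Agent.P.MP_a84a61_al.Odd
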