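import Pool.Agent.P.MP_a84a61_al.Odd.Word

set_option autoImplicit false
set_option linter.unusedSectionVars false
set_option linter.unusedSimpArgs false

namespace Pool.Agent.P.MP_a84a61_al.Odd

open Finset

/-- the wreath product of an abelian group with a cyclic group -/
@[ext] structure Wr (p : ℕ) (A : Type) where
  a : ZMod p → A
  c : ZMod p

namespace Wr
variable {p : ℕ} {A B : Type} [AddCommGroup A] [AddCommGroup B]

instance : Mul (Wr p A) := ⟨fun x y => ⟨fun s => x.a s + y.a (s + x.c), x.c + y.c⟩⟩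
instance : One (Wr p A) := ⟨⟨0, 0⟩⟩
instance : Inv (Wr p A) := ⟨fun x => ⟨fun s => -x.a (s - x.c), -x.c⟩⟩

@[simp] lemma mul_a (x y : Wr p A) (s : ZMod p) : (x * y).a s = x.a s + y.a (s + x.c) := rfl
@[simp] lemma mul_c (x y : Wr p A) : (x * y).c = x.c + y.c := rfl
@[simp] lemma one_a (s : ZMod p) : (1 : Wr p A).a s = 0 := rfl
@[simp] lemma one_c : (1 : Wr p A).c = 0 := rfl
@[simp] lemma inv_a (x : Wr p A) (s : ZMod p) : (x⁻¹).a s = -x.a (s - x.c) := rfl
@[simp] lemma inv_c (x : Wr p A) : (x⁻¹).c = -x.c := rfl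

instance : Group (Wr p A) := Group.ofLeftAxioms
  (fun x y z => by ext <;> simp [add_assoc])
  (fun x => by ext <;> simp)
  (fun x => by ext <;> simp [sub_eq_add_neg])

/-- functoriality -/
def map (L : A →+ B) : Wr p A →* Wr p B where
  toFun x := ⟨fun s => L (x.a s), x.c⟩
  map_one' := by ext <;> simp
  map_mul' x y := by ext <;> simp

@[simp] lemma map_a (L : A →+ B) (x : Wr p A) (s : ZMod p) : (map L x).a s = L (x.a s) := rfl
@[simp] lemma map_c (L : A →+ B) (x : Wr p A) : (map L x).c = x.c := rfl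

def cc (p : ℕ) (A : Type) [AddCommGroup A] : Wr p A →* Multiplicative (ZMod p) :=
  ⟨⟨fun x => Multiplicative.ofAdd x.c, rfl⟩, fun _ _ => rfl⟩

lemma pow_c (x : Wr p A) (n : ℕ) : (x ^ n).c = n * x.c := by
  induction n with
  | zero => simp
  | succ n ih => rw [pow_succ, mul_c, ih]; push_cast; ring

lemma cp_eq (x y : Wr p A) : cp p x y = 1 := by
  apply cm_of_comm
  have h1 : ∀ z : Wr p A, (z ^ p).c = 0 := fun z => by simp [pow_c]
  ext <;> simp [h1, add_comm]

lemma cj_a (z q : Wr p A) (hq : q.c = 0) (s : ZMod p) : (cj z q).a s = q.a (s + z.c) := by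
  simp [cj, hq]

lemma cj_c (z q : Wr p A) (hq : q.c = 0) : (cj z q).c = 0 := by
  simp [cj, hq]

lemma mw_c {κ : Type} [Fintype κ] (x y : κ → Wr p A) : (mw x y).c = 0 :=
  (map_mw (cc p A) x y).trans (mw_comm _ _)

end Wr

variable (p : ℕ) [Fact p.Prime] (K : Type) [Field K]

abbrev QQ := Wr p (Additive Kˣ) × (ZMod p → Kˣ)

abbrev VV := ZMod p × ZMod p → K

def rhoV : QQ p K →* Module.End K (VV p K) where
  toFun q :=
    { toFun := fun v y => ((q.1.a (y.1 + y.2)).toMul : K) * (q.2 y.1 : K) * v (y.1, y.2 + q.1.c)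
      map_add' := fun _ _ => by funext y; simp [mul_add]
      map_smul' := fun c v => by funext y; simp; ring }
  map_one' := by
    refine LinearMap.ext fun v => funext fun y => ?_
    simp
  map_mul' g h := by
    refine LinearMap.ext fun v => funext fun y => ?_
    simp [add_assoc]
    ring

variable {p K}

lemma rhoV_apply (q : QQ p K) (v : VV p K) (j t : ZMod p) : rhoV p K q v (j, t) =
    ((q.1.a (j + t)).toMul : K) * (q.2 j : K) * v (j, t + q.1.c) := rfl

def hat (w : VV p K) (s : ZMod p) (o : Option (ZMod p)) : K := o.elim 1 fun t => w (s - t, t)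

def phi (e : ZMod p → Option (ZMod p)) (w : VV p K) : K := ∏ s, hat w s (e s)

variable (p K) in
/-- multi-affine functions -/
def MM : Submodule K (VV p K → K) := Submodule.span K (Set.range phi)

instance : Module.Finite K (MM p K) := Module.Finite.span_of_finite K (Set.finite_range _)

lemma prod_mem (k : ZMod p → Option (ZMod p) → K) :
    (fun w => ∏ s, ∑ o, k s o * hat w s o) ∈ MM p K := by
  have : (fun w : VV p K => ∏ s, ∑ o, k s o * hat w s o) =
      ∑ e : ZMod p → Option (ZMod p), (∏ s, k s (e s)) • phi e := by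
    funext w
    rw [Finset.prod_univ_sum, Fintype.piFinset_univ, Finset.sum_apply]
    simp only [Finset.prod_mul_distrib, Pi.smul_apply, smul_eq_mul, phi]
  rw [this]
  exact Submodule.sum_mem _ fun e _ => Submodule.smul_mem _ _ (Submodule.subset_span ⟨e, rfl⟩)

lemma MM_inv (x : Aff (rhoV p K)) : ∀ φ ∈ MM p K, (fun w => φ (x.act w)) ∈ MM p K := by
  intro φ hφ
  induction hφ using Submodule.span_induction with
  | mem φ h =>
    obtain ⟨e, rfl⟩ := h
    have h1 : ∀ s o, ∃ k : Option (ZMod p) → K, ∀ w : VV p K,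
        hat (x.act w) s o = ∑ o', k o' * hat w (s + x.g.1.c) o' := by
      rintro s (_ | t)
      · exact ⟨Pi.single none 1, fun w => by simp [Pi.single_apply, hat]⟩
      · refine ⟨Pi.single none (x.v (s - t, t)) + Pi.single (some (t + x.g.1.c))
          (((x.g.1.a s).toMul : K) * (x.g.2 (s - t) : K)), fun w => ?_⟩
        simp only [Pi.add_apply, add_mul, sum_add_distrib, Pi.single_apply, ite_mul, zero_mul,
          Finset.sum_ite_eq', mem_univ, if_true]
        simp [hat, Aff.act, rhoV_apply]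
    choose k hk using h1
    have h2 : (fun w => phi e (x.act w)) =
        fun w => ∏ s, ∑ o, k (s - x.g.1.c) (e (s - x.g.1.c)) o * hat w s o := by
      funext w
      rw [phi, ← Equiv.prod_comp (Equiv.addRight x.g.1.c)
        (fun s => ∑ o, k (s - x.g.1.c) (e (s - x.g.1.c)) o * hat w s o)]
      simp [hk]
    rw [h2]
    exact prod_mem _
  | zero => exact Submodule.zero_mem _
  | add φ ψ _ _ h1 h2 => exact Submodule.add_mem _ h1 h2
  | smul c φ _ h => exact Submodule.smul_mem _ c h

variable [CharP K p]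

lemma sum_phi (h2 : p ≠ 2) (e : ZMod p → Option (ZMod p)) (q : QQ p K) (hq : q.1.c = 0)
    (hq' : q.2 = 1) (v w : VV p K) :
    ∑ i ∈ range p, phi e (w - rhoV p K q v - (i : K) • v) =
      -∑ s, hat w s (e s) * ∏ s' ∈ univ.erase s, -((e s').elim 0 fun t => v (s' - t, t)) -
        (∑ s, ((q.1.a s).toMul : K)) * ∏ s, -((e s).elim 0 fun t => v (s - t, t)) := by
  have h1 : ∀ (i : ℕ) s, hat (w - rhoV p K q v - (i : K) • v) s (e s) =
      (hat w s (e s) + ((q.1.a s).toMul : K) * -((e s).elim 0 fun t => v (s - t, t))) +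
        (i : K) * -((e s).elim 0 fun t => v (s - t, t)) := by
    intro i s
    rcases e s with _ | t
    · simp [hat]
    · simp [hat, rhoV_apply, hq, hq', sub_eq_add_neg]
  simp only [phi, h1]
  rw [sum_prod_lin h2, Finset.sum_mul, sub_eq_add_neg, ← neg_add, ← sum_add_distrib]
  congr 1
  refine sum_congr rfl fun s _ => ?_
  rw [add_mul, mul_assoc, Finset.mul_prod_erase univ
    (fun s' => -((e s').elim 0 fun t => v (s' - t, t))) (mem_univ s)]

lemma law_fun (h2 : p ≠ 2) (z q : QQ p K) (hq : q.1.c = 0) (hq' : q.2 = 1) (v w : VV p K) :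
    ∀ φ ∈ MM p K, ∑ i ∈ range p, (φ (w - rhoV p K (cj z q) v - (i : K) • v) -
      φ (w - rhoV p K q v - (i : K) • v)) = 0 := by
  intro φ hφ
  induction hφ using Submodule.span_induction with
  | mem φ h =>
    obtain ⟨e, rfl⟩ := h
    have h1 : (cj z q).1 = cj z.1 q.1 := rfl
    rw [sum_sub_distrib, sum_phi h2 e q hq hq', sum_phi h2 e (cj z q)
      (by rw [h1, Wr.cj_c _ _ hq]) (by simp [cj, hq']), h1]
    simp only [Wr.cj_a _ _ hq]
    have h3 : ∑ s, ((q.1.a (s + z.1.c)).toMul : K) = ∑ s, ((q.1.a s).toMul : K) :=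
      Equiv.sum_comp (Equiv.addRight z.1.c) fun s => ((q.1.a s).toMul : K)
    rw [h3, sub_self]
  | zero => simp
  | add φ ψ _ _ h1 h2 =>
    rw [← add_zero (0 : K)]
    nth_rewrite 1 [← h1]
    rw [← h2, ← sum_add_distrib]
    exact sum_congr rfl fun i _ => by simp only [Pi.add_apply]; ring
  | smul c φ _ h =>
    simp only [Pi.smul_apply, smul_eq_mul, ← mul_sub, ← Finset.mul_sum, h, mul_zero]

lemma QQ_cp (a b : QQ p K) : cp p a b = 1 :=
  Prod.ext ((map_cp (MonoidHom.fst _ _) p a b).trans (Wr.cp_eq _ _))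
    ((map_cp (MonoidHom.snd _ _) p a b).trans (cm_comm _ _))

variable (p K) in
/-- the representation whose affine group is the example -/
noncomputable abbrev rhoG := tw (fn (MM p K) MM_inv)

theorem law_G (h2 : p ≠ 2) {κ : Type} [Fintype κ] (u : Fin 7 → Aff (rhoG p K))
    (x y : κ → Aff (rhoG p K)) : ww p u x y = 1 := by
  have h0 : ∀ a b : Aff (rhoV p K), (cp p a b).g = 1 := fun a b =>
    (map_cp (Aff.top _) p a b).trans (QQ_cp _ _)
  have hy : (y0 p u).g = 1 := by
    refine Prod.ext ?_ ?_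
    · exact (map_y0 ((MonoidHom.fst _ _).comp (Aff.top (rhoG p K))) p u).trans
        (cm_aff _ _ (h0 _ _) (h0 _ _))
    · exact (map_y0 ((MonoidHom.snd _ _).comp (Aff.top (rhoG p K))) p u).trans
        (Heis.cm_cm _ _ _ _)
  have hr : (r0 p u).g = (⟨(r0 p u).g.1.v, 1⟩, 1) := by
    refine Prod.ext (Aff.ext rfl ?_) ?_
    · refine (map_r0 (top3 (MM p K) MM_inv) p u).trans ?_
      rw [r0, QQ_cp, one_pow]
    · exact (map_r0 ((MonoidHom.snd _ _).comp (Aff.top (rhoG p K))) p u).trans (Heis.cm_sq _ _)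
  obtain ⟨h3, h4⟩ := ww_eval (MM p K) MM_inv p u x y hy _ hr
  refine Aff.ext (funext fun s => Subtype.ext (funext fun w => ?_)) h3
  rw [h4, map_cj, map_mw]
  refine law_fun h2 _ _ ?_ ?_ _ _ _ ((y0 p u).v s).2
  · exact (congrArg Wr.c (map_mw (MonoidHom.fst (Wr p (Additive Kˣ)) (ZMod p → Kˣ)) _ _)).trans
      (Wr.mw_c _ _)
  · exact (map_mw (MonoidHom.snd (Wr p (Additive Kˣ)) (ZMod p → Kˣ)) _ _).trans (mw_comm _ _)

/-- independence of characters -/
lemma dedekind [Infinite K] {B Y : Type} [AddCommGroup B] [Module.Free ℤ B] [Fintype Y]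
    (Γ : Y → B) (U θ : Y → K)
    (h : ∀ χ : B →+ Additive Kˣ, ∑ y, U y * ((χ (Γ y)).toMul : K) = 0)
    (hθ : ∀ y y', Γ y = Γ y' → θ y = θ y') : ∑ y, U y * θ y = 0 := by
  classical
  let ev : B → (Multiplicative (B →+ Additive Kˣ) →* K) := fun b =>
    { toFun := fun χ => ((χ.toAdd b).toMul : K)
      map_one' := by simp
      map_mul' := fun _ _ => by simp }
  have hev : Function.Injective ev := by
    intro b b' hb
    by_contra hne
    have h1 : ¬ ∀ l : Module.Dual ℤ B, l (b - b') = 0 := by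
      rw [Module.forall_dual_apply_eq_zero_iff]
      exact sub_ne_zero.2 hne
    push Not at h1
    obtain ⟨l, hl⟩ := h1
    obtain ⟨c, hc0, hc⟩ : ∃ c : K, c ≠ 0 ∧ c ^ (l (b - b')).natAbs ≠ 1 := by
      obtain ⟨c, hc⟩ := Infinite.exists_notMem_finset
        (insert 0 (Polynomial.nthRoots (l (b - b')).natAbs (1 : K)).toFinset)
      rw [mem_insert, not_or, Multiset.mem_toFinset,
        Polynomial.mem_nthRoots (Int.natAbs_pos.2 hl)] at hc
      exact ⟨c, hc.1, hc.2⟩
    have h3 := DFunLike.congr_fun hb (Multiplicative.ofAdd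
      ((zmultiplesHom _ (Additive.ofMul (Units.mk0 c hc0))).comp l.toAddMonoidHom))
    have h4 : c ^ l b = c ^ l b' := by simpa [ev] using h3
    have h5 : c ^ l (b - b') = 1 := by rw [map_sub, zpow_sub₀ hc0, h4, div_self (zpow_ne_zero _ hc0)]
    apply hc
    rcases Int.natAbs_eq (l (b - b')) with h6 | h6
    · rw [h6, zpow_natCast] at h5; exact h5
    · rw [h6, zpow_neg, zpow_natCast, inv_eq_one] at h5; exact h5
  have hli := (linearIndependent_monoidHom (Multiplicative (B →+ Additive Kˣ)) K).comp ev hev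
  have h1 := linearIndependent_iff'.1 hli (univ.image Γ)
    (fun b => ∑ y ∈ univ.filter (fun y => Γ y = b), U y) (by
      funext χ
      have := h χ.toAdd
      rw [← Finset.sum_fiberwise_of_maps_to (g := Γ) (t := univ.image Γ)
        (fun y _ => mem_image_of_mem _ (mem_univ y))] at this
      rw [Finset.sum_apply, Pi.zero_apply, ← this]
      refine sum_congr rfl fun b _ => ?_
      rw [Pi.smul_apply, smul_eq_mul, Finset.sum_mul]
      refine sum_congr rfl fun y hy => ?_
      rw [(mem_filter.1 hy).2]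
      rfl)
  rw [← Finset.sum_fiberwise_of_maps_to (g := Γ) (t := univ.image Γ)
    (fun y _ => mem_image_of_mem _ (mem_univ y))]
  refine sum_eq_zero fun b hb => ?_
  obtain ⟨y0, -, rfl⟩ := mem_image.1 hb
  rw [sum_congr rfl fun y hy => by rw [hθ y y0 (mem_filter.1 hy).2], ← Finset.sum_mul, h1 _ hb,
    zero_mul]

end Pool.Agent.P.MP_a84a61_al.Odd
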