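import Pool.Agent.P.MP_a84a61_al.Odd.Trans

set_option autoImplicit false
set_option linter.unusedSectionVars false
set_option linter.unusedSimpArgs false

namespace Pool.Agent.P.MP_a84a61_al.Odd

open Finset

lemma exists_fin (s : FreeGroup ℕ) :
    ∃ n, ∀ m, n ≤ m → ∃ w : FreeGroup (Fin m), FreeGroup.map Fin.val w = s := by
  induction s using FreeGroup.induction_on with
  | C1 => exact ⟨0, fun m _ => ⟨1, map_one _⟩⟩
  | of x => exact ⟨x + 1, fun m hm => ⟨FreeGroup.of ⟨x, hm⟩, by simp⟩⟩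
  | inv_of x h =>
    obtain ⟨n, hn⟩ := h
    refine ⟨n, fun m hm => ?_⟩
    obtain ⟨w, hw⟩ := hn m hm
    exact ⟨w⁻¹, by rw [map_inv, hw]⟩
  | mul x y hx hy =>
    obtain ⟨n, hn⟩ := hx
    obtain ⟨n', hn'⟩ := hy
    refine ⟨max n n', fun m hm => ?_⟩
    obtain ⟨w, hw⟩ := hn m (le_trans (le_max_left _ _) hm)
    obtain ⟨w', hw'⟩ := hn' m (le_trans (le_max_right _ _) hm)
    exact ⟨w * w', by rw [map_mul, hw, hw']⟩

variable {p : ℕ} [Fact p.Prime] {K : Type} [Field K] [CharP K p] [Infinite K]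

theorem not_fb (h2 : p ≠ 2) (S : Finset (FreeGroup ℕ)) :
    ¬ ∀ w : FreeGroup ℕ,
      (∀ τ : FreeGroup ℕ →* Aff (rhoG p K), Aff.lin (rhoG p K) (τ w) = 1) ↔
        w ∈ Subgroup.normalClosure
          {u : FreeGroup ℕ | ∃ φ : FreeGroup ℕ →* FreeGroup ℕ, ∃ s ∈ S, u = φ s} := by
  intro hS
  choose nn hnn using exists_fin
  let m := S.sup nn
  let i1 : Fin (2 * m + 1) := 0
  obtain ⟨u, x, y, hv⟩ := not_law h2 i1
  obtain ⟨e, he⟩ := exists_injective_nat (Fin 7 ⊕ Fin (2 * m + 1) ⊕ Fin (2 * m + 1))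
  let θ : ℕ → Aff (rhoF p i1) := Function.extend e (Sum.elim u (Sum.elim x y)) fun _ => 1
  have hW := (hS (ww p (fun i => FreeGroup.of (e (.inl i)))
    (fun i => FreeGroup.of (e (.inr (.inl i)))) fun i => FreeGroup.of (e (.inr (.inr i))))).1
    fun τ => by rw [map_ww, law_G h2, map_one]
  have hle : Subgroup.normalClosure
      {u : FreeGroup ℕ | ∃ φ : FreeGroup ℕ →* FreeGroup ℕ, ∃ s ∈ S, u = φ s} ≤
      ((Aff.lin (rhoF p i1)).comp (FreeGroup.lift θ)).ker := by
    apply Subgroup.normalClosure_le_normal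
    rintro _ ⟨φ, s, hs, rfl⟩
    have hlaw := (hS s).2 (Subgroup.subset_normalClosure ⟨MonoidHom.id _, s, hs, rfl⟩)
    obtain ⟨w, rfl⟩ := hnn s m (Finset.le_sup hs)
    have h3 := (transfer (K := K) h2 (by simp) i1).law w (fun τ => by
      have h1 : (FreeGroup.lift fun n => if h : n < m then τ (FreeGroup.of ⟨n, h⟩) else 1).comp
          (FreeGroup.map Fin.val) = τ := by
        ext j : 1
        simp
      rw [← h1, MonoidHom.comp_apply]
      exact hlaw _) ((FreeGroup.lift θ).comp (φ.comp (FreeGroup.map Fin.val)))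
    rw [MonoidHom.comp_apply, MonoidHom.comp_apply] at h3
    rw [SetLike.mem_coe, MonoidHom.mem_ker, MonoidHom.comp_apply]
    exact h3
  have h1 := hle hW
  rw [MonoidHom.mem_ker, MonoidHom.comp_apply, map_ww, Aff.lin_eq_one] at h1
  simp only [FreeGroup.lift_apply_of, θ, he.extend_apply, Sum.elim_inl, Sum.elim_inr] at h1
  exact hv h1.1

theorem main (h2 : p ≠ 2) : ∃ (n : ℕ) (G : Subgroup (Matrix.GeneralLinearGroup (Fin n) K)),
    ¬ ∃ S : Finset (FreeGroup ℕ), ∀ w : FreeGroup ℕ,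
      (∀ f : ℕ → G, FreeGroup.lift f w = 1) ↔
        w ∈ Subgroup.normalClosure
          {u : FreeGroup ℕ | ∃ φ : FreeGroup ℕ →* FreeGroup ℕ, ∃ s ∈ S, u = φ s} := by
  let b := Module.finBasis K ((ZMod 2 → MM p K) × K)
  let ρ1 := (LinearMap.toMatrixAlgEquiv b).toMulEquiv.toMonoidHom.comp (Aff.lin (rhoG p K))
  let e := ρ1.toHomUnits.rangeRestrict
  have he : ∀ x, e x = 1 ↔ Aff.lin (rhoG p K) x = 1 := by
    intro x
    rw [Subtype.ext_iff, Units.ext_iff]
    exact map_eq_one_iff (LinearMap.toMatrixAlgEquiv b) (LinearMap.toMatrixAlgEquiv b).injective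
  refine ⟨_, ρ1.toHomUnits.range, fun ⟨S, hS⟩ => not_fb (K := K) h2 S fun w => ?_⟩
  rw [← hS w]
  constructor
  · intro h f
    choose f' hf' using fun j => ρ1.toHomUnits.rangeRestrict_surjective (f j)
    have : FreeGroup.lift f = e.comp (FreeGroup.lift f') := by
      ext j : 1
      simp only [FreeGroup.lift_apply_of, MonoidHom.comp_apply]
      exact (hf' j).symm
    rw [this]
    exact (he _).2 (h _)
  · intro h τ
    have : FreeGroup.lift (fun j => e (τ (FreeGroup.of j))) = e.comp τ := by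
      ext j : 1
      simp only [FreeGroup.lift_apply_of, MonoidHom.comp_apply]
    have h1 := h fun j => e (τ (FreeGroup.of j))
    rw [this] at h1
    exact (he _).1 h1

end Pool.Agent.P.MP_a84a61_al.Odd
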