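import Pool.Agent.P.MP_a84a61_al.Odd.Ell

set_option autoImplicit false
set_option linter.unusedSectionVars false
set_option linter.unusedSimpArgs false

namespace Pool.Agent.P.MP_a84a61_al.Odd

open Finset

variable {p : ℕ} [Fact p.Prime]

lemma rot_rot {L : Type} (r r' : ZMod p) (x : ZMod p → L) : rot r (rot r' x) = rot (r + r') x := by
  funext s; simp [rot, add_assoc]

lemma rot_zero {L : Type} (x : ZMod p → L) : rot 0 x = x := by
  funext s; simp [rot]

def rotE {L : Type} (r : ZMod p) : (ZMod p → L) ≃ (ZMod p → L) where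
  toFun := rot r
  invFun := rot (-r)
  left_inv x := by rw [rot_rot, neg_add_cancel, rot_zero]
  right_inv x := by rw [rot_rot, add_neg_cancel, rot_zero]

lemma rot_free {L : Type} {x : ZMod p → L} {r r' : ZMod p} (h : rot r x = rot r' x) (hr : r ≠ r')
    (s : ZMod p) : x s = x 0 := by
  have h1 : ∀ t, x (t + (r - r')) = x t := fun t => by
    have := congrFun h (t - r')
    simp only [rot, sub_add_cancel] at this
    rw [← this]
    congr 1
    ring
  have h2 : ∀ n : ℕ, x (n * (r - r')) = x 0 := by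
    intro n
    induction n with
    | zero => simp
    | succ n ih => rw [Nat.cast_succ, add_mul, one_mul, h1, ih]
  rw [← h2 (s / (r - r')).val, ZMod.natCast_zmod_val, div_mul_cancel₀ _ (sub_ne_zero.2 hr)]

open Classical in
/-- one chosen tuple in each rotation class -/
noncomputable def ori {L : Type} (x : ZMod p → L) : ZMod p :=
  if x = @Classical.epsilon _ ⟨x⟩ (fun y => ∃ r, y = rot r x) then 1 else 0

lemma ori_sum {L : Type} (x : ZMod p → L) (hx : ¬ ∀ s, x s = x 0) : ∑ r, ori (rot r x) = 1 := by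
  classical
  have h1 : ∀ r, (fun y => ∃ r', y = rot r' (rot r x)) = fun y => ∃ r', y = rot r' x := by
    intro r
    funext y
    refine propext ⟨fun ⟨r', h⟩ => ⟨r' + r, by rw [h, rot_rot]⟩,
      fun ⟨r', h⟩ => ⟨r' - r, by rw [h, rot_rot, sub_add_cancel]⟩⟩
  obtain ⟨r0, h0⟩ := Classical.epsilon_spec (p := fun y => ∃ r, y = rot r x)
    ⟨x, 0, (rot_zero x).symm⟩
  simp only [ori, h1]
  rw [Finset.sum_eq_single r0 (fun r _ hr => if_neg fun h => hx (rot_free (h.trans h0) hr))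
    (by simp), if_pos h0.symm]

lemma two_ori {S : Type} [Fintype S] [DecidableEq S] (Ω o1 o2 : (ZMod p → S) → ZMod p)
    (hΩ : ∀ r y, Ω (rot r y) = Ω y) (h1 : ∀ y, Ω y ≠ 0 → ∑ r, o1 (rot r y) = 1)
    (h2 : ∀ y, Ω y ≠ 0 → ∑ r, o2 (rot r y) = 1) : ∑ y, o1 y * Ω y = ∑ y, o2 y * Ω y := by
  have e1 : ∀ y, o1 y * Ω y = ∑ r, o1 y * o2 (rot r y) * Ω y := by
    intro y
    by_cases h : Ω y = 0
    · simp [h]
    · rw [← Finset.sum_mul, ← Finset.mul_sum, h2 y h, mul_one]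
  have e2 : ∀ y, o2 y * Ω y = ∑ r, o1 (rot (-r) y) * o2 y * Ω y := by
    intro y
    by_cases h : Ω y = 0
    · simp [h]
    · have : ∑ r, o1 (rot (-r) y) = ∑ r, o1 (rot r y) :=
        Equiv.sum_comp (Equiv.neg (ZMod p)) fun r => o1 (rot r y)
      rw [← Finset.sum_mul, ← Finset.sum_mul, this, h1 y h, one_mul]
  rw [sum_congr rfl fun y _ => e1 y, sum_congr rfl fun y _ => e2 y, Finset.sum_comm,
    Finset.sum_comm (f := fun y r => o1 (rot (-r) y) * o2 y * Ω y)]
  refine sum_congr rfl fun r _ => ?_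
  rw [← Equiv.sum_comp (rotE r) fun y => o1 (rot (-r) y) * o2 y * Ω y]
  refine sum_congr rfl fun y _ => ?_
  change _ = o1 (rot (-r) (rot r y)) * o2 (rot r y) * Ω (rot r y)
  rw [rot_rot, neg_add_cancel, rot_zero, hΩ]

/-- the tensor power of a formal sum -/
noncomputable def pw {P : Type} [DecidableEq P] (v : P →₀ ZMod p) : (ZMod p → P) →₀ ZMod p :=
  Finsupp.onFinset (Fintype.piFinset fun _ => v.support) (fun h => ∏ s, v (h s)) fun _ hh =>
    Fintype.mem_piFinset.2 fun s => Finsupp.mem_support_iff.2 fun h0 =>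
      hh (prod_eq_zero (mem_univ s) h0)

lemma pw_apply {P : Type} [DecidableEq P] (v : P →₀ ZMod p) (h : ZMod p → P) :
    pw v h = ∏ s, v (h s) := rfl

lemma pw_sum {P S : Type} [DecidableEq P] [Fintype S] [DecidableEq S] (c : S → ZMod p)
    (μ : S → P) : pw (∑ x, Finsupp.single (μ x) (c x)) =
      ∑ y : ZMod p → S, Finsupp.single (fun s => μ (y s)) (∏ s, c (y s)) := by
  ext h
  rw [pw_apply, Finsupp.finsetSum_apply]
  simp only [Finsupp.finsetSum_apply]
  rw [Finset.prod_univ_sum, Fintype.piFinset_univ]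
  refine sum_congr rfl fun y _ => ?_
  simp only [Finsupp.single_apply]
  split_ifs with hy
  · exact prod_congr rfl fun s _ => if_pos (congrFun hy s)
  · obtain ⟨s, hs⟩ := Function.ne_iff.1 hy
    exact prod_eq_zero (mem_univ s) (if_neg hs)

variable {κ : Type} [Fintype κ] [DecidableEq κ]

/-- the test function -/
noncomputable def Lam (i1 : κ) (v : PP κ →₀ ZMod p) : ZMod p :=
  Finsupp.linearCombination (ZMod p) (fun h => ori h * ell i1 h) (pw v)

variable (p κ) in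
noncomputable def rhoT : PP κ × (ZMod p)ˣ →* Module.End (ZMod p) (PP κ →₀ ZMod p) where
  toFun g := (g.2 : ZMod p) • Finsupp.lmapDomain (ZMod p) (ZMod p) (g.1 * ·)
  map_one' := by ext; simp
  map_mul' g h := by ext : 2; simp [mul_assoc, mul_comm]

lemma rhoT_single (g : PP κ × (ZMod p)ˣ) (h : PP κ) (c : ZMod p) :
    rhoT p κ g (Finsupp.single h c) = Finsupp.single (g.1 * h) (g.2 * c) := by
  simp [rhoT]

variable (p) in
/-- the test module -/
noncomputable def FT (i1 : κ) : Submodule (ZMod p) ((PP κ →₀ ZMod p) → ZMod p) :=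
  Submodule.span (ZMod p) (Set.range fun x : Aff (rhoT p κ) => fun w => Lam i1 (x.act w))

lemma FT_inv (i1 : κ) (x : Aff (rhoT p κ)) :
    ∀ φ ∈ FT p i1, (fun w => φ (x.act w)) ∈ FT p i1 := by
  intro φ hφ
  induction hφ using Submodule.span_induction with
  | mem φ h =>
    obtain ⟨y, rfl⟩ := h
    exact Submodule.subset_span ⟨y * x, funext fun w => by simp only [Aff.act_mul]⟩
  | zero => exact Submodule.zero_mem _
  | add φ ψ _ _ h1 h2 => exact Submodule.add_mem _ h1 h2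
  | smul c φ _ h => exact Submodule.smul_mem _ c h

lemma Lam_mem (i1 : κ) : Lam i1 ∈ FT p i1 :=
  Submodule.subset_span ⟨1, funext fun w => by simp only [Aff.act_one]⟩

lemma Lam_val (h2 : p ≠ 2) (i1 : κ) (g : PP κ) (α β : ZMod p) :
    ∑ i ∈ range p, Lam i1 (Finsupp.single g α + (i : ZMod p) • Finsupp.single 1 β) =
      -(α * β ^ (p - 1) * ell i1 (Pi.mulSingle (0 : ZMod p) g)) := by
  have h1 : ∑ i ∈ range p, pw (Finsupp.single g α + (i : ZMod p) • Finsupp.single (1 : PP κ) β) =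
      -∑ s : ZMod p, Finsupp.single (Pi.mulSingle s g) (α * β ^ (p - 1)) := by
    ext h
    simp only [Finsupp.finsetSum_apply, pw_apply, Finsupp.add_apply, Finsupp.smul_apply,
      smul_eq_mul, Finsupp.neg_apply]
    rw [sum_prod_lin h2]
    congr 1
    refine sum_congr rfl fun s _ => ?_
    simp only [Finsupp.single_apply]
    by_cases hh : Pi.mulSingle s g = h
    · subst hh
      rw [if_pos rfl, if_pos (by simp), prod_congr rfl fun s' hs' =>
        if_pos (by simp [ne_of_mem_erase hs']), prod_const, card_erase_of_mem (mem_univ s),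
        card_univ, ZMod.card]
    · rw [if_neg hh]
      obtain ⟨s', hs'⟩ := Function.ne_iff.1 hh
      by_cases h3 : s' = s
      · subst h3
        rw [if_neg (by simpa using hs'), zero_mul]
      · rw [prod_eq_zero (mem_erase.2 ⟨h3, mem_univ _⟩) (if_neg (by simpa [h3] using hs')),
          mul_zero]
  have h3 : ∀ s : ZMod p, (Pi.mulSingle s g : ZMod p → PP κ) =
      rot (-s) (Pi.mulSingle (0 : ZMod p) g) := by
    intro s
    funext t
    simp [rot, Pi.mulSingle_apply, add_neg_eq_zero]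
  simp only [Lam]
  rw [← map_sum, h1, map_neg, map_sum, sum_congr rfl fun s _ => by rw [h3 s]]
  simp only [Finsupp.linearCombination_single, smul_eq_mul, ell_rot h2, ← Finset.mul_sum,
    ← Finset.sum_mul]
  congr 2
  by_cases h4 : ∀ s, (Pi.mulSingle (0 : ZMod p) g : ZMod p → PP κ) s =
      (Pi.mulSingle (0 : ZMod p) g : ZMod p → PP κ) 0
  · rw [ell_const i1 _ h4, mul_zero]
  · have : ∑ r : ZMod p, ori (rot (-r) (Pi.mulSingle (0 : ZMod p) g : ZMod p → PP κ)) =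
        ∑ r : ZMod p, ori (rot r (Pi.mulSingle (0 : ZMod p) g : ZMod p → PP κ)) :=
      Equiv.sum_comp (Equiv.neg (ZMod p))
        fun r => ori (rot r (Pi.mulSingle (0 : ZMod p) g : ZMod p → PP κ))
    rw [this, ori_sum _ h4, one_mul]

variable (p) in
/-- the representation whose affine group is the test group -/
noncomputable abbrev rhoF (i1 : κ) := tw (fn (FT p i1) (FT_inv i1))

lemma pow_inv {H : Type} [Group H] (h2 : p ≠ 2) {x : H} (h : x * x = 1) : x ^ p = x := by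
  obtain ⟨k, hk⟩ := (Fact.out : p.Prime).odd_of_ne_two h2
  rw [hk, pow_succ, pow_mul, sq, h, one_pow, one_mul]

theorem not_law (h2 : p ≠ 2) (i1 : κ) : ∃ (u : Fin 7 → Aff (rhoF p i1))
    (x y : κ → Aff (rhoF p i1)), (ww p u x y).v ≠ 0 := by
  let φ0 : ZMod 2 → FT p i1 := fun _ => ⟨Lam i1, Lam_mem i1⟩
  let em : PP κ →* Aff (rhoF p i1) :=
    { toFun := fun g => ⟨0, (⟨0, (g, 1)⟩, 1)⟩
      map_one' := rfl
      map_mul' := fun g h => by
        refine Aff.ext (by simp) (Prod.ext (Aff.ext (by simp) (by simp)) (by simp)) }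
  let a : Aff (rhoF p i1) := ⟨0, (1, ⟨1, 0, 0⟩)⟩
  let b : Aff (rhoF p i1) := ⟨0, (1, ⟨0, 1, 0⟩)⟩
  let c : Aff (rhoF p i1) := ⟨φ0, (1, ⟨0, 0, 1⟩)⟩
  let d : Aff (rhoF p i1) := ⟨0, (1, ⟨0, 0, 1⟩)⟩
  let a' : Aff (rhoF p i1) := ⟨0, (⟨Finsupp.single 1 1, (1, -1)⟩, 1)⟩
  let b' : Aff (rhoF p i1) := ⟨0, (⟨0, (1, -1)⟩, 1)⟩
  have ha : a ^ p = a := pow_inv h2 (Aff.ext (by simp [a]) (Prod.ext (by simp [a])
    (show (⟨1, 0, 0⟩ * ⟨1, 0, 0⟩ : Heis) = 1 by decide)))
  have hb : b ^ p = b := pow_inv h2 (Aff.ext (by simp [b]) (Prod.ext (by simp [b])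
    (show (⟨0, 1, 0⟩ * ⟨0, 1, 0⟩ : Heis) = 1 by decide)))
  have hc2 : c * c = 1 := Aff.ext (by simp [c, tw_neg]) (Prod.ext (by simp [c])
    (show (⟨0, 0, 1⟩ * ⟨0, 0, 1⟩ : Heis) = 1 by decide))
  have hd2 : d * d = 1 := Aff.ext (by simp [d]) (Prod.ext (by simp [d])
    (show (⟨0, 0, 1⟩ * ⟨0, 0, 1⟩ : Heis) = 1 by decide))
  have ha2 : a' * a' = 1 := Aff.ext (by simp [a'])
    (Prod.ext (Aff.ext (by simp [a', rhoT_single]) (by simp [a'])) (by simp [a']))
  have hb2 : b' * b' = 1 := Aff.ext (by simp [b'])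
    (Prod.ext (Aff.ext (by simp [b']) (by simp [b'])) (by simp [b']))
  have h1 : cp p a b = d := by
    rw [cp, ha, hb]
    exact Aff.ext (by simp [cm, a, b, d]) (Prod.ext (by simp [cm, a, b, d])
      (show (⟨1, 0, 0⟩ * ⟨0, 1, 0⟩ * (⟨1, 0, 0⟩ : Heis)⁻¹ * (⟨0, 1, 0⟩ : Heis)⁻¹ : Heis) =
        ⟨0, 0, 1⟩ by decide))
  have hcd : c * d = ⟨φ0, 1⟩ := Aff.ext (by simp [c, d]) (Prod.ext (by simp [c, d])
    (show (⟨0, 0, 1⟩ * ⟨0, 0, 1⟩ : Heis) = 1 by decide))
  have h3 : cp p c d = ⟨φ0 + φ0, 1⟩ := by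
    rw [cp, pow_inv h2 hc2, pow_inv h2 hd2, cm, inv_eq_of_mul_eq_one_right hc2,
      inv_eq_of_mul_eq_one_right hd2, mul_assoc (c * d), hcd]
    exact Aff.ext (by simp) (by simp)
  have h4 : cm d ⟨φ0 + φ0, 1⟩ = ⟨-(φ0 + φ0) + -(φ0 + φ0), 1⟩ := by
    have : cm d ⟨φ0 + φ0, 1⟩ = cj d ⟨φ0 + φ0, 1⟩ * (⟨φ0 + φ0, 1⟩ : Aff (rhoF p i1))⁻¹ := rfl
    rw [this, cj_aff _ _ rfl]
    refine Aff.ext ?_ (by simp)
    simp only [d, Aff.mul_v, Aff.inv_v, inv_one, rho_one, tw_neg]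
  have hab : a' * b' = ⟨0, (⟨Finsupp.single 1 1, 1⟩, 1)⟩ := Aff.ext (by simp [a', b'])
    (Prod.ext (Aff.ext (by simp [a', b']) (by simp [a', b'])) (by simp [a', b']))
  have h5 : cp p a' b' ^ 2 = ⟨0, (⟨Finsupp.single 1 4, 1⟩, 1)⟩ := by
    rw [cp, pow_inv h2 ha2, pow_inv h2 hb2, cm, inv_eq_of_mul_eq_one_right ha2,
      inv_eq_of_mul_eq_one_right hb2, mul_assoc (a' * b'), hab, sq]
    refine Aff.ext (by simp) (Prod.ext (Aff.ext ?_ (by simp)) (by simp))
    simp only [Aff.mul_g, Prod.fst_mul, Aff.mul_v, rho_one, mul_one, ← Finsupp.single_add]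
    norm_num
  let u : Fin 7 → Aff (rhoF p i1) := ![a, b, c, d, a', b', em (FreeGroup.of (.inl none))]
  have hy : y0 p u = ⟨-(φ0 + φ0) + -(φ0 + φ0), 1⟩ := by
    change cm (cp p a b) (cp p c d) = _
    rw [h1, h3, h4]
  have hr : r0 p u = ⟨0, (⟨Finsupp.single 1 4, 1⟩, 1)⟩ := h5
  refine ⟨u, fun i => em (FreeGroup.of (.inl (some i))), fun i => em (FreeGroup.of (.inr i)),
    fun h0 => ?_⟩
  have h6 := (ww_eval (FT p i1) (FT_inv i1) p u (fun i => em (FreeGroup.of (.inl (some i))))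
    (fun i => em (FreeGroup.of (.inr i))) (by rw [hy]) (Finsupp.single 1 4) (by rw [hr])).2 0 0
  have h7 : u 6 = em (FreeGroup.of (.inl none)) := rfl
  have h8 : ∀ g : PP κ, top3 (FT p i1) (FT_inv i1) (em g) = (g, 1) := fun _ => rfl
  have h9 : ∀ w, ((-(φ0 + φ0) + -(φ0 + φ0)) 0).1 w = -4 * Lam i1 w := by
    intro w
    change -(Lam i1 w + Lam i1 w) + -(Lam i1 w + Lam i1 w) = _
    ring
  have h10 : ∀ (g : PP κ) (i : ℕ), (0 : PP κ →₀ ZMod p) - Finsupp.single g 4 -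
      (i : ZMod p) • Finsupp.single (1 : PP κ) (4 : ZMod p) =
      Finsupp.single g (-4) + (i : ZMod p) • Finsupp.single 1 (-4) := by
    intro g i
    rw [Finsupp.single_neg, Finsupp.single_neg, smul_neg, zero_sub, sub_eq_add_neg]
  rw [h0, h7, ← map_mw em, ← map_cj em, h8, h8, hy] at h6
  simp only [h9, rhoT_single, mul_one, Units.val_one, one_mul, h10, sum_sub_distrib,
    ← Finset.mul_sum, Lam_val h2] at h6
  have h11 : (-4 : ZMod p) ≠ 0 := by
    rw [show (-4 : ZMod p) = -(2 * 2) by norm_num]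
    exact neg_ne_zero.2 (mul_ne_zero (two_ne h2) (two_ne h2))
  refine ell_val h2 i1 _ rfl (mul_left_cancel₀
    (mul_ne_zero h11 (mul_ne_zero h11 (pow_ne_zero (p - 1) h11))) ?_)
  have h12 : ((0 : ZMod 2 → FT p i1) 0).1 0 = 0 := rfl
  rw [h12] at h6
  linear_combination h6

end Pool.Agent.P.MP_a84a61_al.Odd
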