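import Pool.Agent.P.MP_a84a61_al.Odd.Test

set_option autoImplicit false
set_option linter.unusedSectionVars false
set_option linter.unusedSimpArgs false

namespace Pool.Agent.P.MP_a84a61_al.Odd

open Finset

lemma fn_sum_zero {R T V : Type} [CommRing R] [Group T] [AddCommGroup V] [Module R V]
    {ρ : T →* Module.End R V} (M : Submodule R (V → R))
    (hM : ∀ x : Aff ρ, ∀ φ ∈ M, (fun w => φ (x.act w)) ∈ M) {A : Type} (S : Finset A)
    (f : A → ℤ) (x : A → Aff ρ) : ∑ a ∈ S, f a • fn M hM (x a) = 0 ↔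
      ∀ φ ∈ M, ∀ w, ∑ a ∈ S, (f a : R) * φ ((x a)⁻¹.act w) = 0 := by
  have h1 : ∀ (φ : M) w, ((∑ a ∈ S, f a • fn M hM (x a)) φ).1 w =
      ∑ a ∈ S, (f a : R) * φ.1 ((x a)⁻¹.act w) := by
    intro φ w
    rw [LinearMap.sum_apply, Submodule.coe_sum, Finset.sum_apply]
    refine sum_congr rfl fun a _ => ?_
    rw [← zsmul_eq_mul]
    rfl
  constructor
  · intro h φ hφ w
    rw [← h1 ⟨φ, hφ⟩ w, h]
    rfl
  · intro h
    exact LinearMap.ext fun φ => Subtype.ext (funext fun w => (h1 φ w).trans (h φ.1 φ.2 w))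

variable {p : ℕ} [Fact p.Prime] {K : Type} [Field K] [CharP K p] [Infinite K]
  {κ ι : Type} [Fintype κ] [DecidableEq κ] [Fintype ι] [DecidableEq ι]

abbrev BB (p : ℕ) (ι Z : Type) :=
  (ι × ZMod p → ℤ) × (ZMod p → ι → ℤ) × (ZMod p → Option ι × Z → ℤ)

/-- the exponent of a generic monomial -/
def gam {Z : Type} [DecidableEq Z] (ψ : ι → ZMod p) (s : ZMod p) (x : XX ι) (b : Z) : BB p ι Z :=
  ((pth ψ x.1).a s, Pi.single s (deg x.1).toAdd, Pi.single s (Pi.single (x.2, b) 1))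

/-- what an identity of the linear group says about tuples -/
lemma generic {A Z : Type} [Fintype Z] [DecidableEq Z] (S : Finset A) (f : A → ℤ)
    (g : A → FreeGroup ι) (S1 : Finset (XX ι)) (hS1 : ∀ a ∈ S, (uu (g a)⁻¹).support ⊆ S1)
    (hG : ∀ τ : FreeGroup ι →* Aff (rhoV p K),
      ∑ a ∈ S, f a • fn (MM p K) MM_inv (τ (g a)) = 0)
    (ε : FreeGroup ι →* (ZMod p)ˣ) (v : Option ι → Z → ZMod p) (ψ : ι → ZMod p)
    (θ : (ZMod p → S1 × Z) → ZMod p)
    (hθ : ∀ y y' : ZMod p → S1 × Z, ∑ s, gam ψ s (y s).1.1 (y s).2 =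
      ∑ s, gam ψ s (y' s).1.1 (y' s).2 → θ y = θ y') :
    ∑ y : ZMod p → S1 × Z, (∑ a ∈ S, (f a : ZMod p) * ∏ s, ((uu (g a)⁻¹ (y s).1.1 : ZMod p) *
      ((ε (y s).1.1.1 : ZMod p) * v (y s).1.1.2 (y s).2))) * θ y = 0 := by
  classical
  let c := ZMod.castHom (dvd_refl p) K
  apply c.injective
  rw [map_sum, map_zero]
  simp only [map_mul c]
  refine dedekind (fun y : ZMod p → S1 × Z => ∑ s, gam ψ s (y s).1.1 (y s).2) _ _
    (fun χ => ?_) fun y y' h => congrArg c (hθ y y' h)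
  let χ1 : (ι × ZMod p → ℤ) →+ Additive Kˣ := χ.comp (AddMonoidHom.inl _ _)
  let χ2 : ZMod p → (ι → ℤ) →+ Additive Kˣ := fun s => χ.comp ((AddMonoidHom.inr _ _).comp
    ((AddMonoidHom.inl _ _).comp (AddMonoidHom.single (fun _ => ι → ℤ) s)))
  let q2 : FreeGroup ι →* (ZMod p → Kˣ) := MonoidHom.mk'
    (fun h s => (χ2 s (deg h).toAdd).toMul * Units.map c.toMonoidHom (ε h))
    (fun h h' => by
      funext s
      simp only [map_mul, toAdd_mul, map_add, toMul_add, Pi.mul_apply]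
      exact mul_mul_mul_comm _ _ _ _)
  let q : FreeGroup ι →* QQ p K := ((Wr.map χ1).comp (pth ψ)).prod q2
  let w : Option ι → VV p K := fun i y => ∑ b : Z, c (v i b) *
    ((χ (0, 0, Pi.single y.1 (Pi.single (i, b) 1))).toMul : K)
  let τ : FreeGroup ι →* Aff (rhoV p K) :=
    FreeGroup.lift fun j => ⟨w (some j), q (FreeGroup.of j)⟩
  have hτ : ∀ h, (τ h).g = q h := by
    have : (Aff.top _).comp τ = q := by ext j : 1; simp [τ]
    exact fun h => DFunLike.congr_fun this h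
  have hw : ∀ i, vec τ (w none) i = w i := by
    rintro (_ | j)
    · rfl
    · simp [vec, τ]
  have e1 : ∀ a ∈ S, ∀ s, (τ (g a)⁻¹).act (w none) (s, 0) = ∑ y : S1 × Z,
      c ((uu (g a)⁻¹ y.1.1 : ZMod p) * ((ε y.1.1.1 : ZMod p) * v y.1.1.2 y.2)) *
        ((χ (gam ψ s y.1.1 y.2)).toMul : K) := by
    intro a ha s
    rw [act_eq _ _ _ S1 (hS1 a ha), ← Finset.sum_coe_sort S1, Finset.sum_apply,
      Fintype.sum_prod_type]
    refine sum_congr rfl fun x _ => ?_
    rw [hτ, hw, Pi.smul_apply, rhoV_apply, zsmul_eq_mul, add_zero]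
    simp only [w, Finset.mul_sum]
    refine sum_congr rfl fun b _ => ?_
    have h1 : gam ψ s x.1 b = ((pth ψ x.1.1).a s, 0, 0) + (0, Pi.single s (deg x.1.1).toAdd, 0) +
        (0, 0, Pi.single s (Pi.single (x.1.2, b) 1)) := by simp [gam]
    have h3 : (q x.1.1).1.a s = χ ((pth ψ x.1.1).a s, 0, 0) := rfl
    have h4 : ((q x.1.1).2 s : K) =
        ((χ (0, Pi.single s (deg x.1.1).toAdd, 0)).toMul : K) * c (ε x.1.1) := rfl
    rw [h1, map_add χ, map_add χ, toMul_add, toMul_add, Units.val_mul, Units.val_mul, h3, h4,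
      map_mul c, map_mul c, map_intCast c]
    ring
  have e2 := (fn_sum_zero _ _ _ _ _).1 (hG τ) (phi fun _ => some 0)
    (Submodule.subset_span ⟨_, rfl⟩) (w none)
  rw [← e2]
  simp only [map_sum c, Finset.sum_mul]
  rw [Finset.sum_comm]
  refine sum_congr rfl fun a ha => ?_
  have h5 : phi (fun _ => some 0) ((τ (g a))⁻¹.act (w none)) =
      ∏ s, (τ (g a)⁻¹).act (w none) (s, 0) := by
    simp only [phi, hat, Option.elim_some, sub_zero, map_inv]
  rw [h5, prod_congr rfl fun s _ => e1 a ha s, Finset.prod_univ_sum, Fintype.piFinset_univ,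
    Finset.mul_sum]
  refine sum_congr rfl fun y _ => ?_
  rw [map_mul c, map_intCast c, map_prod c, map_sum χ, toMul_sum, Units.coe_prod,
    Finset.prod_mul_distrib, mul_assoc]

lemma core (h2 : p ≠ 2) (hc : 2 * Fintype.card ι < Fintype.card κ) (i1 : κ) {A : Type}
    (S : Finset A) (f : A → ℤ) (g : A → FreeGroup ι)
    (hG : ∀ τ : FreeGroup ι →* Aff (rhoV p K),
      ∑ a ∈ S, f a • fn (MM p K) MM_inv (τ (g a)) = 0)
    (σ : FreeGroup ι →* Aff (rhoT p κ)) (w0 : PP κ →₀ ZMod p) :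
    ∑ a ∈ S, (f a : ZMod p) * Lam i1 ((σ (g a)⁻¹).act w0) = 0 := by
  classical
  let S1 : Finset (XX ι) := S.biUnion fun a => (uu (g a)⁻¹).support
  have hS1 : ∀ a ∈ S, (uu (g a)⁻¹).support ⊆ S1 := fun a ha =>
    subset_biUnion_of_mem (fun a => (uu (g a)⁻¹).support) ha
  let S2 : Finset (PP κ) := univ.biUnion fun i => (vec σ w0 i).support
  let σP : FreeGroup ι →* PP κ := (MonoidHom.fst _ _).comp ((Aff.top _).comp σ)
  let ε : FreeGroup ι →* (ZMod p)ˣ := (MonoidHom.snd _ _).comp ((Aff.top _).comp σ)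
  let v : Option ι → S2 → ZMod p := fun i b => vec σ w0 i b
  let μ : S1 × S2 → PP κ := fun y => σP y.1.1.1 * y.2
  have hv : ∀ i, vec σ w0 i = ∑ b : S2, Finsupp.single b.1 (v i b) := by
    intro i
    rw [Finset.sum_coe_sort S2 fun b => Finsupp.single b (vec σ w0 i b)]
    conv_lhs => rw [← Finsupp.sum_single (vec σ w0 i)]
    exact Finsupp.sum_of_support_subset _
      (subset_biUnion_of_mem (fun i => (vec σ w0 i).support) (mem_univ i)) _ (by simp)
  have e1 : ∀ a ∈ S, (σ (g a)⁻¹).act w0 = ∑ y : S1 × S2, Finsupp.single (μ y)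
      ((uu (g a)⁻¹ y.1.1 : ZMod p) * ((ε y.1.1.1 : ZMod p) * v y.1.1.2 y.2)) := by
    intro a ha
    rw [act_eq _ _ _ S1 (hS1 a ha), ← Finset.sum_coe_sort S1, Fintype.sum_prod_type]
    refine sum_congr rfl fun x _ => ?_
    rw [hv, map_sum, Finset.smul_sum]
    refine sum_congr rfl fun b _ => ?_
    rw [rhoT_single, Finsupp.smul_single, zsmul_eq_mul]
    rfl
  let U : (ZMod p → S1 × S2) → ZMod p := fun y => ∑ a ∈ S, (f a : ZMod p) *
    ∏ s, ((uu (g a)⁻¹ (y s).1.1 : ZMod p) * ((ε (y s).1.1.1 : ZMod p) * v (y s).1.1.2 (y s).2))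
  let lab : S1 × S2 → (Option ι × S2) × (ι → ZMod p) := fun y => ((y.1.1.2, y.2), cl p y.1.1.1)
  have e2 : ∑ a ∈ S, (f a : ZMod p) * Lam i1 ((σ (g a)⁻¹).act w0) =
      ∑ y : ZMod p → S1 × S2, ori (fun s => μ (y s)) * (U y * ell i1 fun s => μ (y s)) := by
    rw [sum_congr rfl fun a ha => by rw [e1 a ha, Lam, pw_sum, map_sum, Finset.mul_sum],
      Finset.sum_comm]
    refine sum_congr rfl fun y _ => ?_
    simp only [U, Finsupp.linearCombination_single, smul_eq_mul, Finset.sum_mul, Finset.mul_sum]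
    exact sum_congr rfl fun a _ => by ring
  rw [e2, two_ori (fun y => U y * ell i1 fun s => μ (y s)) (fun y => ori fun s => μ (y s))
    (fun y => ori fun s => lab (y s)) (fun r y => ?_) (fun y hy => ?_) (fun y hy => ?_)]
  · simp only [ell, Finset.mul_sum]
    rw [Finset.sum_comm]
    refine sum_eq_zero fun φ _ => ?_
    rw [← generic S f g S1 hS1 hG ε v (fun j => (rho φ (σP (FreeGroup.of j))).n)
      (fun y => ori (fun s => lab (y s)) * FF i1 φ fun s => μ (y s)) fun y y' h => ?_]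
    · exact sum_congr rfl fun y _ => by ring
    · simp only [gam, Prod.ext_iff, Prod.fst_sum, Prod.snd_sum, Finset.univ_sum_single] at h
      obtain ⟨h1, h3, h4⟩ := h
      have h5 : ∀ s, cl p (y s).1.1.1 = cl p (y' s).1.1.1 := fun s => by
        unfold cl
        rw [congrFun h3 s]
      have h6 : ∀ s, ((y s).1.1.2, (y s).2) = ((y' s).1.1.2, (y' s).2) := fun s => by
        by_contra hne
        have := congrFun (congrFun h4 s) ((y s).1.1.2, (y s).2)
        rw [Pi.single_eq_same, Pi.single_eq_of_ne hne] at this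
        exact one_ne_zero this
      have h7 : (fun s => lab (y s)) = fun s => lab (y' s) :=
        funext fun s => Prod.ext (h6 s) (h5 s)
      have h8 : (fun s => μ (y' s)) = fun s => σP (y' s).1.1.1 * (y s).2 :=
        funext fun s => by rw [(Prod.ext_iff.1 (h6 s)).2]
      rw [h7, h8, ← FF_congr i1 σP φ (fun s => (y s).1.1.1) (fun s => (y' s).1.1.1)
        (fun s => (y s).2) h5 h1]
  · refine congrArg₂ (· * ·) (sum_congr rfl fun a _ => congrArg _ ?_)
      (ell_rot h2 i1 r fun s => μ (y s))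
    exact Equiv.prod_comp (Equiv.addRight r) fun s => ((uu (g a)⁻¹ (y s).1.1 : ZMod p) *
      ((ε (y s).1.1.1 : ZMod p) * v (y s).1.1.2 (y s).2))
  · exact ori_sum (fun s => μ (y s)) fun h => hy (by rw [ell_const i1 _ h, mul_zero])
  · refine ori_sum (fun s => lab (y s)) fun h => hy ?_
    have h1 : (fun s => μ (y s)) = fun s => σP (y s).1.1.1 * (y 0).2 := funext fun s => by
      rw [← (Prod.ext_iff.1 (Prod.ext_iff.1 (h s)).1).2]
    rw [h1, ell_fibre h2 hc i1 σP _ fun s => (Prod.ext_iff.1 (h s)).2, mul_zero]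

theorem transfer (h2 : p ≠ 2) (hc : 2 * Fintype.card ι < Fintype.card κ) (i1 : κ) :
    Tr ι (rhoG p K) (rhoF p i1) := by
  refine Tr.tw fun A S f g hG σ => (fn_sum_zero _ _ _ _ _).2 fun φ hφ w => ?_
  induction hφ using Submodule.span_induction with
  | mem φ h =>
    obtain ⟨x, rfl⟩ := h
    rw [← core h2 hc i1 S f g hG ((MulAut.conj x).toMonoidHom.comp σ) (x.act w)]
    refine sum_congr rfl fun a _ => ?_
    simp only [← Aff.act_mul]
    simp
  | zero => simp
  | add φ ψ _ _ h1 h3 => simp only [Pi.add_apply, mul_add, sum_add_distrib, h1, h3, add_zero]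
  | smul c φ _ h =>
    simp only [Pi.smul_apply, smul_eq_mul, mul_left_comm _ c, ← Finset.mul_sum, h, mul_zero]

end Pool.Agent.P.MP_a84a61_al.Odd
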