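import Pool.Agent.P.MP_a84a61_al.Odd.Aff

set_option autoImplicit false
set_option linter.unusedSectionVars false
set_option linter.unusedSimpArgs false

namespace Pool.Agent.P.MP_a84a61_al.Odd

open Finset

section words
variable {H H' κ : Type} [Group H] [Group H'] [Fintype κ]

def cm (x y : H) : H := x * y * x⁻¹ * y⁻¹

def cj (g y : H) : H := g * y * g⁻¹

def cp (p : ℕ) (a b : H) : H := cm (a ^ p) (b ^ p)

noncomputable def mw (x y : κ → H) : H := ((univ : Finset κ).toList.map fun i => cm (x i) (y i)).prod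

def nrm (n : ℕ) (r y : H) : H := ((List.range n).map fun i => cj (r ^ i) y).prod

def y0 (p : ℕ) (u : Fin 7 → H) : H := cm (cp p (u 0) (u 1)) (cp p (u 2) (u 3))

def r0 (p : ℕ) (u : Fin 7 → H) : H := cp p (u 4) (u 5) ^ 2

/-- the law -/
noncomputable def ww (p : ℕ) (u : Fin 7 → H) (x y : κ → H) : H :=
  cj (cj (cj (u 6) (mw x y)) (r0 p u)) (nrm p (r0 p u) (y0 p u)) *
    (cj (cj (mw x y) (r0 p u)) (nrm p (r0 p u) (y0 p u)))⁻¹

variable (φ : H →* H')

lemma map_cm (x y : H) : φ (cm x y) = cm (φ x) (φ y) := by simp [cm]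

lemma map_cj (x y : H) : φ (cj x y) = cj (φ x) (φ y) := by simp [cj]

lemma map_cp (p : ℕ) (x y : H) : φ (cp p x y) = cp p (φ x) (φ y) := by simp [cp, map_cm]

lemma map_mw (x y : κ → H) : φ (mw x y) = mw (fun i => φ (x i)) (fun i => φ (y i)) := by
  simp only [mw, map_list_prod, List.map_map]
  congr 2
  funext i; simp [map_cm]

lemma map_nrm (n : ℕ) (r y : H) : φ (nrm n r y) = nrm n (φ r) (φ y) := by
  simp only [nrm, map_list_prod, List.map_map]
  congr 2
  funext i; simp [map_cj]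

lemma map_y0 (p : ℕ) (u : Fin 7 → H) : φ (y0 p u) = y0 p fun i => φ (u i) := by
  simp [y0, map_cm, map_cp]

lemma map_r0 (p : ℕ) (u : Fin 7 → H) : φ (r0 p u) = r0 p fun i => φ (u i) := by
  simp [r0, map_cp]

lemma map_ww (p : ℕ) (u : Fin 7 → H) (x y : κ → H) :
    φ (ww p u x y) = ww p (fun i => φ (u i)) (fun i => φ (x i)) (fun i => φ (y i)) := by
  simp only [ww, map_mul, map_inv, map_cj, map_mw, map_nrm, map_y0, map_r0]

lemma cm_comm {C : Type} [CommGroup C] (x y : C) : cm x y = 1 := by simp [cm]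

lemma mw_comm {C : Type} [CommGroup C] (x y : κ → C) : mw x y = 1 := by simp [mw, cm_comm]

lemma cm_of_comm {x y : H} (h : x * y = y * x) : cm x y = 1 := by
  rw [cm, h]; group

end words

lemma Heis.cm_cm (a b c d : Heis) : cm (cm a b) (cm c d) = 1 := by
  have : ∀ a b x : Heis, cm (cm a b) x = 1 := by decide
  exact this _ _ _

lemma Heis.cm_sq (a b : Heis) : cm a b ^ 2 = 1 := by
  have : ∀ a b : Heis, cm a b * cm a b = 1 := by decide
  rw [sq, this]

section eval
variable {R T V : Type} [CommRing R] [Group T] [AddCommGroup V] [Module R V]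
  {ρ : T →* Module.End R V} {κ : Type} [Fintype κ]

lemma cj_aff (g y : Aff ρ) (hy : y.g = 1) : cj g y = ⟨ρ g.g y.v, 1⟩ := by
  ext
  · simp [cj, hy, ← rho_mul]
  · simp [cj, hy]

lemma pow_aff (v : V) (i : ℕ) : (⟨v, 1⟩ : Aff ρ) ^ i = ⟨(i : R) • v, 1⟩ := by
  induction i with
  | zero => ext <;> simp
  | succ i ih => rw [pow_succ, ih]; ext <;> simp [add_smul]

lemma pow_g (r : Aff ρ) (i : ℕ) : (r ^ i).g = r.g ^ i := map_pow (Aff.top ρ) r i

lemma nrm_aff (n : ℕ) (r y : Aff ρ) (hy : y.g = 1) :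
    nrm n r y = ⟨∑ i ∈ range n, ρ (r.g ^ i) y.v, 1⟩ := by
  induction n with
  | zero => ext <;> simp [nrm]
  | succ n ih =>
    have : nrm (n + 1) r y = nrm n r y * cj (r ^ n) y := by
      simp [nrm, List.range_succ]
    rw [this, ih, cj_aff _ _ hy, pow_g]
    ext <;> simp [sum_range_succ]

lemma cm_aff (x y : Aff ρ) (hx : x.g = 1) (hy : y.g = 1) : cm x y = 1 := by
  apply cm_of_comm
  ext <;> simp [hx, hy, add_comm]

variable (M : Submodule R (V → R)) (hM : ∀ x : Aff ρ, ∀ φ ∈ M, (fun w => φ (x.act w)) ∈ M)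

/-- the projection to the top group -/
def top3 : Aff (tw (fn M hM)) →* T :=
  (Aff.top ρ).comp ((MonoidHom.fst _ _).comp (Aff.top _))

lemma top3_apply (x : Aff (tw (fn M hM))) : top3 M hM x = x.g.1.g := rfl

lemma fn_trans (v : V) (φ : M) (w : V) : (fn M hM ⟨v, 1⟩ φ).1 w = φ.1 (w - v) := by
  rw [fn_apply]
  simp [Aff.act, sub_eq_neg_add]

lemma ww_eval (p : ℕ) (u : Fin 7 → Aff (tw (fn M hM))) (x y : κ → Aff (tw (fn M hM)))
    (hy : (y0 p u).g = 1) (v : V) (hr : (r0 p u).g = (⟨v, 1⟩, 1)) :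
    (ww p u x y).g = 1 ∧ ∀ s w, ((ww p u x y).v s).1 w = ∑ i ∈ range p,
      (((y0 p u).v s).1 (w - ρ (top3 M hM (cj (u 6) (mw x y))) v - (i : R) • v) -
        ((y0 p u).v s).1 (w - ρ (top3 M hM (mw x y)) v - (i : R) • v)) := by
  have h1 : ∀ g : Aff (tw (fn M hM)), (cj g (r0 p u)).g = (⟨ρ (top3 M hM g) v, 1⟩, 1) := by
    intro g
    have : (cj g (r0 p u)).g = cj g.g (r0 p u).g := map_cj (Aff.top _) _ _
    rw [this, hr]
    refine Prod.ext ?_ ?_
    · exact cj_aff g.g.1 ⟨v, 1⟩ rfl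
    · simp [cj]
  have h2 : ∀ i : ℕ, (r0 p u).g ^ i = (⟨(i : R) • v, 1⟩, 1) := by
    intro i
    rw [hr, Prod.pow_mk, pow_aff, one_pow]
  rw [ww, nrm_aff _ _ _ hy, cj_aff (cj (cj (u 6) (mw x y)) (r0 p u)) _ rfl,
    cj_aff (cj (mw x y) (r0 p u)) _ rfl]
  refine ⟨by simp, fun s w => ?_⟩
  simp only [Aff.mul_v, Aff.inv_v, inv_one, rho_one, h1, h2, Pi.add_apply, Pi.neg_apply, tw_one,
    Finset.sum_apply, map_sum, Submodule.coe_add, Submodule.coe_neg, Submodule.coe_sum, fn_trans,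
    sum_sub_distrib, sub_eq_add_neg (∑ i ∈ range p, _)]

end eval

/-! power sums -/

lemma sum_range_zmod {p : ℕ} [NeZero p] {M : Type} [AddCommMonoid M] (g : ZMod p → M) :
    ∑ i ∈ range p, g (i : ZMod p) = ∑ x, g x := by
  refine Finset.sum_nbij' (fun i => (i : ZMod p)) (fun x => x.val) (by simp)
    (fun x _ => mem_range.2 (ZMod.val_lt x)) (fun i hi => ZMod.val_cast_of_lt (mem_range.1 hi))
    (fun x _ => ZMod.natCast_zmod_val x) (fun _ _ => rfl)

lemma sum_id_zmod {p : ℕ} [Fact p.Prime] (h2 : p ≠ 2) : ∑ x : ZMod p, x = 0 := by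
  have h3 : 3 ≤ p := by have := (Fact.out : p.Prime).two_le; omega
  have := FiniteField.sum_pow_lt_card_sub_one (K := ZMod p) 1 (by rw [ZMod.card]; omega)
  simpa using this

lemma sum_pow_zmod {p : ℕ} [Fact p.Prime] (h2 : p ≠ 2) (d : ℕ) (hd : d ≤ p) :
    ∑ x : ZMod p, x ^ d = if d + 1 = p then -1 else 0 := by
  have h3 : 3 ≤ p := by have := (Fact.out : p.Prime).two_le; omega
  split_ifs with h
  · have h1 : ∀ x : ZMod p, x ^ d = 1 - if x = 0 then 1 else 0 := by
      intro x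
      split_ifs with hx
      · rw [hx, zero_pow (by omega), sub_self]
      · rw [show d = p - 1 by omega, ZMod.pow_card_sub_one_eq_one hx, sub_zero]
    simp [h1, sum_sub_distrib]
  · rcases Nat.lt_or_ge d (p - 1) with h1 | h1
    · exact FiniteField.sum_pow_lt_card_sub_one (K := ZMod p) d (by rwa [ZMod.card])
    · obtain rfl : d = p := by omega
      simp only [ZMod.pow_card]
      exact sum_id_zmod h2

lemma sum_prod_lin {p : ℕ} [Fact p.Prime] (h2 : p ≠ 2) {K : Type} [CommRing K] [CharP K p]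
    (α β : ZMod p → K) : ∑ i ∈ range p, ∏ s, (α s + (i : K) * β s) =
      -∑ s, α s * ∏ s' ∈ univ.erase s, β s' := by
  have h3 : 3 ≤ p := by have := (Fact.out : p.Prime).two_le; omega
  have h1 : ∀ d ≤ p, ∑ i ∈ range p, (i : K) ^ d = if d + 1 = p then -1 else 0 := by
    intro d hd
    have := congrArg (ZMod.castHom (dvd_refl p) K) (sum_pow_zmod h2 d hd)
    rw [← sum_range_zmod (fun x : ZMod p => x ^ d), map_sum] at this
    simp only [map_pow, map_natCast] at this
    rw [this]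
    split_ifs <;> simp
  simp only [Finset.prod_add, Finset.prod_mul_distrib, Finset.prod_const]
  rw [Finset.sum_comm]
  have h4 : ∀ B ∈ (univ : Finset (ZMod p)).powerset, ∑ i ∈ range p,
      (∏ s ∈ B, α s) * ((i : K) ^ (univ \ B).card * ∏ s ∈ univ \ B, β s) =
      if B.card = 1 then -((∏ s ∈ B, α s) * ∏ s ∈ univ \ B, β s) else 0 := by
    intro B _
    have h5 : (univ \ B).card + B.card = p := by
      rw [card_sdiff_add_card_eq_card (subset_univ B), card_univ, ZMod.card]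
    rw [← Finset.mul_sum, ← Finset.sum_mul, h1 _ (by omega)]
    by_cases hB : B.card = 1
    · rw [if_pos (by omega), if_pos hB]; ring
    · rw [if_neg (by omega), if_neg hB]; ring
  rw [sum_congr rfl h4, ← Finset.sum_filter, ← Finset.powersetCard_eq_filter,
    Finset.powersetCard_one, Finset.sum_map, ← sum_neg_distrib]
  refine sum_congr rfl fun s _ => ?_
  simp [sdiff_singleton_eq_erase]

end Pool.Agent.P.MP_a84a61_al.Odd
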